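import Pool.Agent.H59.SH.TwoC

/-!
The two-adic contradiction: all cases.
-/

set_option autoImplicit false

namespace Pool.Agent.H59.SH

open NumberField IsDedekindDomain Pool.Agent.W7.FH

variable {K : Type} [Field K] [NumberField K]

section

variable (v : FinitePlace K)

/-- in a residue field with four elements `u ^ 4 = u` -/
lemma four_lt (h4 : nrm v = 4) {u : K} (hu : v u ≤ 1) : v (u ^ 4 - u) < 1 := by
  obtain ⟨n, ⟨d, hd⟩, hnd⟩ :=
    HeightOneSpectrum.exists_primeCompl_mul_eq_of_integer v.maximalIdeal u (valuation_le_one v hu)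
  have hd' : d ∉ v.maximalIdeal.asIdeal := hd
  have hvd := eq_one_of_not_mem v d hd'
  have hcard : Nat.card (𝓞 K ⧸ v.maximalIdeal.asIdeal) = 4 := by
    rw [← h4]
    rfl
  have : Finite (𝓞 K ⧸ v.maximalIdeal.asIdeal) :=
    Nat.finite_of_card_ne_zero (by rw [hcard]; norm_num)
  have := Fintype.ofFinite (𝓞 K ⧸ v.maximalIdeal.asIdeal)
  have hmax : v.maximalIdeal.asIdeal.IsMaximal := v.maximalIdeal.isMaximal
  let _ : Field (𝓞 K ⧸ v.maximalIdeal.asIdeal) := Ideal.Quotient.field _
  have hc : Fintype.card (𝓞 K ⧸ v.maximalIdeal.asIdeal) = 4 := by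
    rw [← Nat.card_eq_fintype_card]; exact hcard
  have h5 : n ^ 4 - n * d ^ 3 ∈ v.maximalIdeal.asIdeal := by
    rw [← Ideal.Quotient.eq_zero_iff_mem, map_sub, map_mul, map_pow, map_pow]
    have e1 := FiniteField.pow_card (Ideal.Quotient.mk v.maximalIdeal.asIdeal n)
    have hdne : Ideal.Quotient.mk v.maximalIdeal.asIdeal d ≠ 0 := by
      rwa [Ne, Ideal.Quotient.eq_zero_iff_mem]
    have e2 := FiniteField.pow_card_sub_one_eq_one (Ideal.Quotient.mk v.maximalIdeal.asIdeal d) hdne
    rw [hc] at e1 e2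
    have e2' : Ideal.Quotient.mk v.maximalIdeal.asIdeal d ^ 3 = 1 := e2
    rw [e1, e2', mul_one, sub_self]
  rw [mem_iff_lt_one] at h5
  have hnd' : u * (d : K) = (n : K) := hnd
  have h6 : (u ^ 4 - u) * (d : K) ^ 4 = ((n ^ 4 - n * d ^ 3 : 𝓞 K) : K) := by
    have e3 : ((n ^ 4 - n * d ^ 3 : 𝓞 K) : K) = (n : K) ^ 4 - (n : K) * (d : K) ^ 3 := by
      simp only [map_sub, map_mul, map_pow]
    rw [e3, ← hnd']
    ring
  have h7 := congrArg v h6
  rw [map_mul, map_pow, hvd, one_pow, mul_one] at h7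
  rw [h7]
  exact h5

lemma four_pow (h4 : nrm v = 4) {u : K} (hu : v u ≤ 1) (m : ℕ) :
    v (u ^ (3 * m + 2) - u ^ 2) < 1 := by
  induction m with
  | zero => simp
  | succ m ih =>
    have e : u ^ (3 * (m + 1) + 2) - u ^ 2 = u ^ 3 * (u ^ (3 * m + 2) - u ^ 2) +
        u * (u ^ 4 - u) := by ring
    rw [e]
    refine v_add_lt v ?_ ?_
    · rw [map_mul]
      exact mul_lt_one_of_nonneg_of_lt_one_right (v_pow_le_one v hu _) (apply_nonneg _ _) ih
    · rw [map_mul]
      exact mul_lt_one_of_nonneg_of_lt_one_right hu (apply_nonneg _ _) (four_lt v h4 hu)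

/-- the case of different absolute values -/
lemma unequal_norm (h2 : v (2 : K) < 1) {p : ℕ} (hp : p.Prime) (hp2 : p ≠ 2) {x a b c : K}
    (hx0 : x ≠ 0) (hx : v x < 1) (hab : a + b = -(1 + x) ^ p) (hbc : b + c = x ^ p)
    (hca : c + a = 1) (h : a ^ p + b ^ p + c ^ p = 0) : False := by
  have hodd : Odd p := hp.odd_of_ne_two hp2
  have hp1 := hp.two_le
  have hvp : v (p : K) = 1 := v_odd v h2 hodd
  have hvx : 0 < v x := FinitePlace.pos_iff.mpr hx0
  have h2p : 0 < v (2 : K) := v_two_pos v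
  obtain ⟨s, hs⟩ : ∃ s, s = a + b + c := ⟨_, rfl⟩
  have h1 : v ((1 + x) ^ p - 1) = v x := by
    rw [one_add_pow v hp hx (by rw [hvp]; exact pow_lt_one₀ hvx.le hx (by omega)), hvp, one_mul]
  have hxp : v (x ^ p) < v x := by
    rw [map_pow]
    obtain ⟨k, rfl⟩ : ∃ k, p = k + 2 := ⟨p - 2, by omega⟩
    calc v x ^ (k + 2) = v x * v x ^ (k + 1) := by ring
      _ < v x * 1 := by
          gcongr
          exact pow_lt_one₀ hvx.le hx (by omega)
      _ = _ := mul_one _
  have h2s : v (2 : K) * v s = v x := by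
    rw [← map_mul]
    have e : 2 * s = -((1 + x) ^ p - 1) + x ^ p := by
      rw [hs]
      linear_combination hab + hbc + hca
    rw [e, add_eq_of_lt v, map_neg_eq_map, h1]
    rw [map_neg_eq_map, h1]
    exact hxp
  have hsgt : v x < v s := by
    have hs0 : 0 < v s := by
      by_contra hcon
      have : v s = 0 := le_antisymm (not_lt.mp hcon) (apply_nonneg _ _)
      rw [this, mul_zero] at h2s
      linarith
    rw [← h2s]
    exact mul_lt_of_lt_one_left hs0 h2
  have ea : a = s - x ^ p := by rw [hs]; linear_combination -hbc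
  have eb : b = s - 1 := by rw [hs]; linear_combination -hca
  have ec : c = s + (1 + x) ^ p := by rw [hs]; linear_combination -hab
  have h1x : v ((1 + x) ^ p) ≤ 1 := by
    refine v_pow_le_one v (v_add_le v ?_ hx.le) _
    rw [map_one]
  obtain ⟨k, hk⟩ : ∃ k, p = k + 1 := ⟨p - 1, by omega⟩
  rcases le_or_gt (v s) 1 with hs1 | hs1
  · -- `s` integral
    have hb : v b ≤ 1 := by
      rw [eb]
      exact v_sub_le' v hs1 (by rw [map_one])
    have hc : v c ≤ 1 := by
      rw [ec]
      exact v_add_le v hs1 h1x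
    have h3 : v (b ^ p + c ^ p) ≤ v (x ^ p) := by
      have e : b ^ p + c ^ p = b ^ (k + 1) - (-c) ^ (k + 1) := by
        rw [← hk, hodd.neg_pow]
        ring
      rw [e]
      have h4 := v_pow_sub_pow v (a := b) (b := -c) (M := 1) hb (by rw [map_neg_eq_map]; exact hc) k
      rw [one_pow, mul_one, sub_neg_eq_add, hbc] at h4
      exact h4
    have h4 : v a ^ p ≤ v x ^ p := by
      have e : a ^ p = -(b ^ p + c ^ p) := by linear_combination h
      rw [← map_pow, e, map_neg_eq_map, ← map_pow]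
      exact h3
    have h5 : v a ≤ v x := le_of_pow_le_pow_left₀ (by omega) hvx.le h4
    have h6 : v a = v s := by
      rw [ea, sub_eq_add_neg, add_eq_of_lt v]
      rw [map_neg_eq_map]
      exact hxp.trans hsgt
    linarith
  · have h3v : v (3 : K) = 1 := by
      have := v_odd v h2 (n := 3) (by decide)
      simpa using this
    have hsk : 0 < v s ^ k := by positivity
    have key : ∀ w r : K, w = s + r → v r ≤ 1 → v (w ^ p - s ^ p) < v s ^ p := by
      intro w r hw hr
      have hwM : v w ≤ v s := by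
        rw [hw]
        exact v_add_le v le_rfl (hr.trans hs1.le)
      have h4 := v_pow_sub_pow v (a := w) (b := s) (M := v s) hwM le_rfl k
      rw [← hk] at h4
      refine h4.trans_lt ?_
      have e : w - s = r := by rw [hw]; ring
      rw [e, hk, pow_succ, mul_comm]
      exact mul_lt_mul_of_pos_left (hr.trans_lt hs1) hsk
    have k1 := key a (-x ^ p) (by rw [ea]; ring) (by rw [map_neg_eq_map]; exact (hxp.trans hx).le)
    have k2 := key b (-1) (by rw [eb]; ring) (by rw [map_neg_eq_map, map_one])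
    have k3 := key c ((1 + x) ^ p) ec h1x
    have h5 : v (3 * s ^ p) < v s ^ p := by
      have e : 3 * s ^ p = -((a ^ p - s ^ p) + (b ^ p - s ^ p) + (c ^ p - s ^ p)) := by
        linear_combination h
      rw [e, map_neg_eq_map]
      exact v_add_lt v (v_add_lt v k1 k2) k3
    rw [map_mul, h3v, one_mul, map_pow] at h5
    exact lt_irrefl _ h5

/-- the configuration -/
structure Conf (p : ℕ) (X Y Z a b c : K) : Prop where
  X0 : X ≠ 0
  Y0 : Y ≠ 0
  Z0 : Z ≠ 0
  sum : X + Y + Z = 0
  ab : a + b = Z ^ p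
  bc : b + c = X ^ p
  ca : c + a = Y ^ p
  eq : a ^ p + b ^ p + c ^ p = 0

omit [NumberField K] in
lemma Conf.rot {p : ℕ} {X Y Z a b c : K} (h : Conf p X Y Z a b c) : Conf p Z X Y c a b where
  X0 := h.Z0
  Y0 := h.X0
  Z0 := h.Y0
  sum := by linear_combination h.sum
  ab := h.ca
  bc := h.ab
  ca := h.bc
  eq := by linear_combination h.eq

omit [NumberField K] in
lemma Conf.swap {p : ℕ} {X Y Z a b c : K} (h : Conf p X Y Z a b c) : Conf p Y X Z b a c where
  X0 := h.Y0
  Y0 := h.X0
  Z0 := h.Z0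
  sum := by linear_combination h.sum
  ab := by linear_combination h.ab
  bc := by linear_combination h.ca
  ca := by linear_combination h.bc
  eq := by linear_combination h.eq

omit [NumberField K] in
lemma Conf.scale {p : ℕ} {X Y Z a b c : K} (h : Conf p X Y Z a b c) :
    Conf p (X / Y) 1 (Z / Y) (a / Y ^ p) (b / Y ^ p) (c / Y ^ p) where
  X0 := div_ne_zero h.X0 h.Y0
  Y0 := one_ne_zero
  Z0 := div_ne_zero h.Z0 h.Y0
  sum := by
    have := h.Y0
    have e : X / Y + 1 + Z / Y = (X + Y + Z) / Y := by field_simp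
    rw [e, h.sum, zero_div]
  ab := by rw [← add_div, h.ab, div_pow]
  bc := by rw [← add_div, h.bc, div_pow]
  ca := by rw [← add_div, h.ca, div_self (pow_ne_zero _ h.Y0), one_pow]
  eq := by rw [div_pow, div_pow, div_pow, ← add_div, ← add_div, h.eq, zero_div]

lemma Conf.not_less (h2 : v (2 : K) < 1) {p : ℕ} (hp : p.Prime) (hp2 : p ≠ 2) {X Y Z a b c : K}
    (h : Conf p X Y Z a b c) : ¬ v X < v Y := by
  intro hlt
  have hs := h.scale
  have hodd : Odd p := hp.odd_of_ne_two hp2
  have hY : 0 < v Y := FinitePlace.pos_iff.mpr h.Y0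
  refine unequal_norm v h2 hp hp2 (x := X / Y) hs.X0 ?_ ?_ hs.bc ?_ hs.eq
  · rw [map_div₀, div_lt_one hY]
    exact hlt
  · rw [hs.ab, ← hodd.neg_pow]
    congr 1
    linear_combination hs.sum
  · rw [hs.ca, one_pow]

lemma Conf.equal (h2 : v (2 : K) < 1) {p : ℕ} (hp : p.Prime) (hp2 : p ≠ 2) {X Y Z a b c : K}
    (h : Conf p X Y Z a b c) : v X = v Y ∧ v Z = v Y := by
  have a1 := h.not_less v h2 hp hp2
  have a2 := h.swap.not_less v h2 hp hp2
  have a3 := h.rot.not_less v h2 hp hp2
  have a4 := h.rot.swap.not_less v h2 hp hp2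
  have e1 : v X = v Y := le_antisymm (not_lt.mp a2) (not_lt.mp a1)
  refine ⟨e1, ?_⟩
  rw [← e1]
  exact le_antisymm (not_lt.mp a4) (not_lt.mp a3)

/-- **the two-adic obstruction** -/
theorem Conf.two_adic (h2 : v (2 : K) < 1)
    (hv : nrm v = 2 ∨ (nrm v = 4 ∧ v (2 : K) = 1 / 4)) {p : ℕ} (hp : p.Prime) (h5 : 5 ≤ p)
    {X Y Z a b c : K} (h : Conf p X Y Z a b c) : X ^ 2 + X * Y + Y ^ 2 = 0 := by
  have hp2 : p ≠ 2 := by omega
  have hodd : Odd p := hp.odd_of_ne_two hp2
  obtain ⟨e1, e2⟩ := h.equal v h2 hp hp2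
  have hY : 0 < v Y := FinitePlace.pos_iff.mpr h.Y0
  have hs := h.scale
  have hx : v (X / Y) = 1 := by rw [map_div₀, e1, div_self hY.ne']
  have hz : v (Z / Y) = 1 := by rw [map_div₀, e2, div_self hY.ne']
  have hy : v (1 : K) = 1 := map_one v
  -- `|x - 1| = 1`
  have hx1 : v (X / Y - 1) = 1 := by
    have e : X / Y - 1 = -(Z / Y) + (-2) := by linear_combination hs.sum
    rw [e, add_eq_of_lt v, map_neg_eq_map, hz]
    rw [map_neg_eq_map, map_neg_eq_map, hz]
    exact h2
  rcases hv with hv | ⟨hv, hv2⟩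
  · exfalso
    have := sub_one_lt v hv hx
    linarith
  have hE : v (EE (X / Y) 1) ≤ v (2 : K) := by
    have h6 := four_lt v hv hx.le
    have e : (X / Y) ^ 4 - X / Y = X / Y * (X / Y - 1) * EE (X / Y) 1 := by
      unfold EE; ring
    rw [e, map_mul, map_mul, hx, hx1, one_mul, one_mul] at h6
    have h7 := le_inv_nrm v h6
    rw [hv] at h7
    rw [hv2]
    refine h7.trans (by norm_num)
  have hgoal : EE (X / Y) 1 = 0 := by
    obtain ⟨s, hsd⟩ : ∃ s, s = a / Y ^ p + b / Y ^ p + c / Y ^ p := ⟨_, rfl⟩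
    have f1 : a / Y ^ p = s - (X / Y) ^ p := by rw [hsd]; linear_combination -hs.bc
    have f2 : b / Y ^ p = s - 1 ^ p := by rw [hsd]; linear_combination -hs.ca
    have f3 : c / Y ^ p = s - (Z / Y) ^ p := by rw [hsd]; linear_combination -hs.ab
    have hF := hs.eq
    rw [f1, f2, f3] at hF
    have h2s : 2 * s = PS (X / Y) 1 (Z / Y) p := by
      rw [hsd]
      unfold PS
      linear_combination hs.ab + hs.bc + hs.ca
    have hmod : p % 3 = 1 ∨ p % 3 = 2 := by
      have h0 : p % 3 ≠ 0 := by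
        intro h0
        have h1 : 3 ∣ p := Nat.dvd_of_mod_eq_zero h0
        rw [Nat.prime_dvd_prime_iff_eq Nat.prime_three hp] at h1
        omega
      omega
    rcases hmod with hmod | hmod
    · obtain ⟨m, rfl⟩ : ∃ m, p = 3 * m + 1 := ⟨p / 3, by omega⟩
      refine case_one v hs.sum hx hy hz h2 hE (m := m) (by omega) ?_ h2s hF
      rw [← Nat.not_odd_iff_even]
      intro hmo
      obtain ⟨j, rfl⟩ := hmo
      rw [← Nat.not_even_iff_odd] at hodd
      exact hodd ⟨3 * j + 2, by ring⟩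
    · obtain ⟨m, rfl⟩ : ∃ m, p = 3 * m + 2 := ⟨p / 3, by omega⟩
      have hmo : Odd m := by
        rw [← Nat.not_even_iff_odd]
        intro hme
        obtain ⟨j, rfl⟩ := hme
        rw [← Nat.not_even_iff_odd] at hodd
        exact hodd ⟨3 * j + 1, by ring⟩
      -- `|s| ≤ 1`
      have hs1 : v s ≤ 1 := by
        have h6 := PS_le v hs.sum hx.le hy.le hz.le h2 hE (n := 3 * m + 2) (by omega)
        rw [← h2s, map_mul] at h6
        have h7 : v (2 : K) * v s ≤ v (2 : K) * 1 := by
          refine h6.trans ?_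
          rw [mul_one]
          calc v ((3 * m + 2 : ℕ) : K) * v (EE (X / Y) 1) ≤ 1 * v (2 : K) :=
                mul_le_mul (natCast_le_one v _) hE (apply_nonneg _ _) zero_le_one
            _ = _ := one_mul _
        exact le_of_mul_le_mul_left h7 (v_two_pos v)
      -- `|s| < 1`
      have hslt : v s < 1 := by
        have i1 : v (s - (X / Y) ^ (3 * m + 2)) ≤ 1 := v_sub_le' v hs1 (v_pow_le_one v hx.le _)
        have i2 : v (s - 1 ^ (3 * m + 2)) ≤ 1 := v_sub_le' v hs1 (v_pow_le_one v hy.le _)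
        have i3 : v (s - (Z / Y) ^ (3 * m + 2)) ≤ 1 := v_sub_le' v hs1 (v_pow_le_one v hz.le _)
        have j1 := four_pow v hv i1 m
        have j2 := four_pow v hv i2 m
        have j3 := four_pow v hv i3 m
        have k1 := PS_le v hs.sum hx.le hy.le hz.le h2 hE (n := (3 * m + 2) * 2) (by omega)
        have k2 : v (PS (X / Y) 1 (Z / Y) ((3 * m + 2) * 2)) < 1 := by
          refine k1.trans_lt ?_
          calc v (((3 * m + 2) * 2 : ℕ) : K) * v (EE (X / Y) 1) ≤ 1 * v (2 : K) :=
                mul_le_mul (natCast_le_one v _) hE (apply_nonneg _ _) zero_le_one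
            _ = v (2 : K) := one_mul _
            _ < 1 := h2
        have h8 : v (s ^ 2) < 1 := by
          have e : s ^ 2 = PS (X / Y) 1 (Z / Y) ((3 * m + 2) * 2) +
              (((s - (X / Y) ^ (3 * m + 2)) ^ (3 * m + 2) - (s - (X / Y) ^ (3 * m + 2)) ^ 2) +
              ((s - 1 ^ (3 * m + 2)) ^ (3 * m + 2) - (s - 1 ^ (3 * m + 2)) ^ 2) +
              ((s - (Z / Y) ^ (3 * m + 2)) ^ (3 * m + 2) - (s - (Z / Y) ^ (3 * m + 2)) ^ 2)) := by
            have e3 : PS (X / Y) 1 (Z / Y) ((3 * m + 2) * 2) = ((X / Y) ^ (3 * m + 2)) ^ 2 +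
                (1 ^ (3 * m + 2)) ^ 2 + ((Z / Y) ^ (3 * m + 2)) ^ 2 := by
              unfold PS
              rw [pow_mul, pow_mul, pow_mul]
            have e4 : PS (X / Y) 1 (Z / Y) (3 * m + 2) = (X / Y) ^ (3 * m + 2) +
                1 ^ (3 * m + 2) + (Z / Y) ^ (3 * m + 2) := rfl
            rw [e3]
            rw [e4] at h2s
            linear_combination -hF + 2 * s * h2s
          rw [e]
          exact v_add_lt v k2 (v_add_lt v (v_add_lt v j1 j2) j3)
        rw [map_pow] at h8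
        by_contra hcon
        push Not at hcon
        have := one_le_pow₀ hcon (n := 2)
        linarith
      have hs2 : v s ≤ v (2 : K) := by
        have h7 := le_inv_nrm v hslt
        rw [hv] at h7
        rw [hv2]
        refine h7.trans (by norm_num)
      exact case_two v hs.sum hx hy hz h2 hE hmo h2s hs2 hF
  have hY0 := h.Y0
  unfold EE at hgoal
  have e : X ^ 2 + X * Y + Y ^ 2 = Y ^ 2 * ((X / Y) ^ 2 + X / Y * 1 + 1 ^ 2) := by
    field_simp
  rw [e, hgoal, mul_zero]

end

end Pool.Agent.H59.SH
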