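import Pool.Agent.H59.SH.Pth
import Pool.Agent.H59.SH.TwoD

/-!
Solutions of Fermat's equation for which the three sums are proportional to `p`-th powers.
-/

set_option autoImplicit false

namespace Pool.Agent.H59.SH

open NumberField IsDedekindDomain Height Pool.Agent.W7.FH

variable {K : Type} [Field K] [NumberField K]

/-- a natural number prime to `p` is a unit at the places above `p` -/
lemma v_coprime (v : FinitePlace K) {p m : ℕ} (hvp : v (p : K) < 1) (hm : m.Coprime p) :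
    v (m : K) = 1 := by
  refine le_antisymm (natCast_le_one v m) (le_of_not_gt fun h => ?_)
  have h3 : IsCoprime ((m : ℕ) : ℤ) ((p : ℕ) : ℤ) := Nat.isCoprime_iff_coprime.mpr hm
  obtain ⟨a, b, hab⟩ := h3
  have h4 : (1 : K) = (a : K) * (m : K) + (b : K) * (p : K) := by
    have := congrArg (fun z : ℤ => (z : K)) hab
    push_cast at this
    exact this.symm
  have hint : ∀ z : ℤ, v (z : K) ≤ 1 := by
    intro z
    rcases Int.eq_nat_or_neg z with ⟨n, rfl | rfl⟩
    · exact_mod_cast natCast_le_one v n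
    · push_cast
      rw [map_neg_eq_map]
      exact natCast_le_one v n
  have h5 : v (1 : K) < 1 := by
    rw [h4]
    refine v_add_lt v ?_ ?_
    · rw [map_mul]
      exact mul_lt_one_of_nonneg_of_lt_one_right (hint a) (apply_nonneg _ _) h
    · rw [map_mul]
      exact mul_lt_one_of_nonneg_of_lt_one_right (hint b) (apply_nonneg _ _) hvp
  rw [map_one] at h5
  exact lt_irrefl _ h5

/-- an element which is integral above `p` becomes integral after multiplication by a natural number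
prime to `p` -/
lemma exists_multiple {p : ℕ} (hp : p.Prime) (x : K)
    (h : ∀ v : FinitePlace K, v (p : K) < 1 → v x ≤ 1) :
    ∃ m : ℕ, m ≠ 0 ∧ m.Coprime p ∧ IsIntegral ℤ ((m : K) * x) := by
  obtain ⟨n, d, hd, hnd⟩ := IsFractionRing.div_surjective (A := 𝓞 K) x
  have hd0 : d ≠ 0 := nonZeroDivisors.ne_zero hd
  -- a natural number which is a multiple of `d`
  obtain ⟨N, hN⟩ : ∃ N, N = Ideal.absNorm (Ideal.span {d}) := ⟨_, rfl⟩
  have hN0 : N ≠ 0 := by
    rw [hN, Ne, Ideal.absNorm_eq_zero_iff, Ideal.span_singleton_eq_bot]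
    exact hd0
  have hNd : d ∣ ((N : ℕ) : 𝓞 K) := by
    rw [← Ideal.mem_span_singleton, hN]
    exact Ideal.absNorm_mem _
  obtain ⟨e, he⟩ := hNd
  have hNx : IsIntegral ℤ ((N : K) * x) := by
    have h1 : (N : K) * x = ((e * n : 𝓞 K) : K) := by
      have h2 : (N : K) = (d : K) * (e : K) := by
        have := congrArg (algebraMap (𝓞 K) K) he
        simpa using this
      have hdK : algebraMap (𝓞 K) K d ≠ 0 := by
        rw [Ne, FaithfulSMul.algebraMap_eq_zero_iff]
        exact hd0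
      have h5 : ((e * n : 𝓞 K) : K) = algebraMap (𝓞 K) K e * algebraMap (𝓞 K) K n :=
        map_mul _ _ _
      have h3 : (d : K) = algebraMap (𝓞 K) K d := rfl
      have h4 : (e : K) = algebraMap (𝓞 K) K e := rfl
      rw [h5, h2, ← hnd, h3, h4]
      field_simp
    rw [h1]
    exact (e * n).2
  obtain ⟨k, m, hm, e2⟩ := Nat.exists_eq_pow_mul_and_not_dvd hN0 p hp.ne_one
  have hm0 : m ≠ 0 := by
    rintro rfl
    exact hN0 (by rw [e2, mul_zero])
  refine ⟨m, hm0, ?_, ?_⟩
  · rw [Nat.coprime_comm]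
    exact (Nat.Prime.coprime_iff_not_dvd hp).2 hm
  · apply isIntegral_of_le
    intro v
    rcases (natCast_le_one v p).lt_or_eq with h1 | h1
    · rw [map_mul]
      exact mul_le_one₀ (natCast_le_one v m) (apply_nonneg _ _) (h v h1)
    · obtain ⟨Z, hZ⟩ : ∃ Z : 𝓞 K, (Z : K) = (N : K) * x := ⟨⟨_, hNx⟩, rfl⟩
      have h2 := integer_le_one v Z
      rw [hZ, e2] at h2
      push_cast at h2
      rw [map_mul, map_mul, map_pow, h1, one_pow, one_mul, ← map_mul] at h2
      exact h2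

lemma dvd_of_val {p : ℕ} {z : 𝓞 K} {m : ℕ} (v : FinitePlace K) (hvm : v (m : K) = 1) {x : K}
    (hz : (z : K) = (m : K) * x) (h : (p : 𝓞 K) ∣ z) : v x ≤ v (p : K) := by
  obtain ⟨w, hw⟩ := h
  have h1 : v ((m : K) * x) ≤ v (p : K) := by
    rw [← hz, hw]
    have : (((p : 𝓞 K) * w : 𝓞 K) : K) = (p : K) * (w : K) := by
      simp only [map_mul, map_natCast]
    rw [this, map_mul]
    exact mul_le_of_le_one_right (apply_nonneg _ _) (integer_le_one v w)
  rwa [map_mul, hvm, one_mul] at h1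

/-- the congruence modulo `p` -/
theorem sum_small {p : ℕ} (hp : p.Prime) (hd : ¬ (p : ℤ) ∣ discr K) {a b c ρ σ : K}
    (ha : ∀ v : FinitePlace K, v (p : K) < 1 → v a ≤ 1)
    (hb : ∀ v : FinitePlace K, v (p : K) < 1 → v b ≤ 1)
    (hc : ∀ v : FinitePlace K, v (p : K) < 1 → v c ≤ 1)
    (hρ : ∀ v : FinitePlace K, v (p : K) < 1 → v ρ ≤ 1)
    (hσ : ∀ v : FinitePlace K, v (p : K) < 1 → v σ ≤ 1)
    (h : a ^ p + b ^ p + c ^ p = 0) (h2 : 2 * (a + b + c) = 1 + ρ ^ p + σ ^ p)
    (v : FinitePlace K) (hvp : v (p : K) < 1) : v (1 + ρ + σ) ≤ v (p : K) := by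
  obtain ⟨m1, n1, c1, i1⟩ := exists_multiple hp a ha
  obtain ⟨m2, n2, c2, i2⟩ := exists_multiple hp b hb
  obtain ⟨m3, n3, c3, i3⟩ := exists_multiple hp c hc
  obtain ⟨m4, n4, c4, i4⟩ := exists_multiple hp ρ hρ
  obtain ⟨m5, n5, c5, i5⟩ := exists_multiple hp σ hσ
  obtain ⟨m, hm⟩ : ∃ m, m = m1 * m2 * m3 * m4 * m5 := ⟨_, rfl⟩
  have hmc : m.Coprime p := by
    rw [hm]
    exact (((c1.mul_left c2).mul_left c3).mul_left c4).mul_left c5
  have hint : ∀ n : ℕ, IsIntegral ℤ (n : K) := fun n => by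
    have : (n : K) = algebraMap ℤ K n := by simp
    rw [this]
    exact isIntegral_algebraMap
  obtain ⟨A, hA⟩ : ∃ A : 𝓞 K, (A : K) = (m : K) * a := by
    have e : (m : K) * a = ((m2 * m3 * m4 * m5 : ℕ) : K) * ((m1 : K) * a) := by
      rw [hm]; push_cast; ring
    have hi : IsIntegral ℤ ((m : K) * a) := by
      rw [e]
      exact (hint _).mul i1
    exact ⟨⟨_, hi⟩, rfl⟩
  obtain ⟨B, hB⟩ : ∃ A : 𝓞 K, (A : K) = (m : K) * b := by
    have e : (m : K) * b = ((m1 * m3 * m4 * m5 : ℕ) : K) * ((m2 : K) * b) := by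
      rw [hm]; push_cast; ring
    have hi : IsIntegral ℤ ((m : K) * b) := by
      rw [e]
      exact (hint _).mul i2
    exact ⟨⟨_, hi⟩, rfl⟩
  obtain ⟨C, hC⟩ : ∃ A : 𝓞 K, (A : K) = (m : K) * c := by
    have e : (m : K) * c = ((m1 * m2 * m4 * m5 : ℕ) : K) * ((m3 : K) * c) := by
      rw [hm]; push_cast; ring
    have hi : IsIntegral ℤ ((m : K) * c) := by
      rw [e]
      exact (hint _).mul i3
    exact ⟨⟨_, hi⟩, rfl⟩
  obtain ⟨R, hR⟩ : ∃ A : 𝓞 K, (A : K) = (m : K) * ρ := by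
    have e : (m : K) * ρ = ((m1 * m2 * m3 * m5 : ℕ) : K) * ((m4 : K) * ρ) := by
      rw [hm]; push_cast; ring
    have hi : IsIntegral ℤ ((m : K) * ρ) := by
      rw [e]
      exact (hint _).mul i4
    exact ⟨⟨_, hi⟩, rfl⟩
  obtain ⟨S, hS⟩ : ∃ A : 𝓞 K, (A : K) = (m : K) * σ := by
    have e : (m : K) * σ = ((m1 * m2 * m3 * m4 : ℕ) : K) * ((m5 : K) * σ) := by
      rw [hm]; push_cast; ring
    have hi : IsIntegral ℤ ((m : K) * σ) := by
      rw [e]
      exact (hint _).mul i5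
    exact ⟨⟨_, hi⟩, rfl⟩
  have hinj : Function.Injective (algebraMap (𝓞 K) K) := FaithfulSMul.algebraMap_injective (𝓞 K) K
  have hcoe : ∀ z : 𝓞 K, (z : K) = algebraMap (𝓞 K) K z := fun _ => rfl
  have hABC : A ^ p + B ^ p + C ^ p = 0 := by
    apply hinj
    simp only [map_add, map_pow, map_zero]
    rw [← hcoe, ← hcoe, ← hcoe, hA, hB, hC, mul_pow, mul_pow, mul_pow, ← mul_add, ← mul_add, h,
      mul_zero]
  have key : ∀ x y z : 𝓞 K, (p : 𝓞 K) ∣ x ^ p + y ^ p + z ^ p → (p : 𝓞 K) ∣ x + y + z := by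
    intro x y z hxyz
    apply dvd_of_dvd_pow hp hd
    obtain ⟨r, hr⟩ := exists_add_pow_prime_eq hp (x + y) z
    obtain ⟨t, ht⟩ := exists_add_pow_prime_eq hp x y
    rw [hr, ht]
    have : x ^ p + y ^ p + ↑p * x * y * t + z ^ p + ↑p * (x + y) * z * r =
        (x ^ p + y ^ p + z ^ p) + p * (x * y * t + (x + y) * z * r) := by ring
    rw [this]
    exact dvd_add hxyz (dvd_mul_right _ _)
  have hsum := key A B C (by rw [hABC]; exact dvd_zero _)
  obtain ⟨k, hk⟩ : ∃ k, p = k + 1 := ⟨p - 1, by have := hp.pos; omega⟩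
  have hMRS : ((m : ℕ) : 𝓞 K) ^ p + R ^ p + S ^ p = 2 * (m : 𝓞 K) ^ k * (A + B + C) := by
    apply hinj
    simp only [map_add, map_pow, map_mul, map_natCast, map_ofNat]
    rw [← hcoe, ← hcoe, ← hcoe, ← hcoe, ← hcoe, hA, hB, hC, hR, hS]
    have e : (m : K) ^ p + (m * ρ) ^ p + (m * σ) ^ p = (m : K) ^ p * (1 + ρ ^ p + σ ^ p) := by
      rw [mul_pow, mul_pow]; ring
    rw [e, ← h2, hk]
    ring
  have h3 := key (m : 𝓞 K) R S (by rw [hMRS]; exact hsum.mul_left _)
  refine dvd_of_val v (v_coprime v hvp hmc) (z := (m : 𝓞 K) + R + S) ?_ h3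
  have e : (((m : 𝓞 K) + R + S : 𝓞 K) : K) = (m : K) + (R : K) + (S : K) := by
    simp only [map_add, map_natCast]
  rw [e, hR, hS]
  ring

/-- the height of the point of the sums -/
lemma mulHeight_sums {a b c : K} (ha : a ≠ 0) (hb : b ≠ 0) (hc : c ≠ 0) (hab : a + b ≠ 0)
    (hbc : b + c ≠ 0) (hca : c + a ≠ 0) :
    mulHeight ![a + b, b + c, c + a] ≤ 2 ^ Module.finrank ℚ K * mulHeight ![a, b, c] := by
  classical
  have hx : ![a, b, c] ≠ 0 := fun h0 => ha (congrFun h0 0)
  have hy : ![a + b, b + c, c + a] ≠ 0 := fun h0 => hab (congrFun h0 0)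
  rw [NumberField.mulHeight_eq (K := K) hx, NumberField.mulHeight_eq (K := K) hy]
  have hfin : ∏ᶠ v : FinitePlace K, ⨆ i : Fin 3, v (![a + b, b + c, c + a] i) ≤
      ∏ᶠ v : FinitePlace K, ⨆ i : Fin 3, v (![a, b, c] i) := by
    apply finprod_le_finprod
    · refine Function.HasFiniteMulSupport.iSup fun i => FinitePlace.hasFiniteMulSupport ?_
      fin_cases i
      · exact hab
      · exact hbc
      · exact hca
    · intro v
      exact Real.iSup_nonneg fun i => apply_nonneg _ _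
    · refine Function.HasFiniteMulSupport.iSup fun i => FinitePlace.hasFiniteMulSupport ?_
      fin_cases i
      · exact ha
      · exact hb
      · exact hc
    · intro v
      show (⨆ i : Fin 3, v (![a + b, b + c, c + a] i)) ≤ ⨆ i : Fin 3, v (![a, b, c] i)
      rw [iSup_three v (a + b) (b + c) (c + a), iSup_three v a b c]
      have e1 : v a ≤ max (max (v a) (v b)) (v c) := le_max_of_le_left (le_max_left _ _)
      have e2 : v b ≤ max (max (v a) (v b)) (v c) := le_max_of_le_left (le_max_right _ _)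
      have e3 : v c ≤ max (max (v a) (v b)) (v c) := le_max_right _ _
      exact max_le (max_le (v_add_le v e1 e2) (v_add_le v e2 e3)) (v_add_le v e3 e1)
  have hinf : ∏ w : InfinitePlace K, (⨆ i : Fin 3, w (![a + b, b + c, c + a] i)) ^ w.mult ≤
      2 ^ Module.finrank ℚ K * ∏ w : InfinitePlace K, (⨆ i : Fin 3, w (![a, b, c] i)) ^ w.mult := by
    have h2 : (2 : ℝ) ^ Module.finrank ℚ K = ∏ w : InfinitePlace K, (2 : ℝ) ^ w.mult := by
      rw [Finset.prod_pow_eq_pow_sum, InfinitePlace.sum_mult_eq]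
    rw [h2, ← Finset.prod_mul_distrib]
    apply Finset.prod_le_prod (fun w _ => pow_nonneg (Real.iSup_nonneg fun i => apply_nonneg _ _) _)
    intro w _
    rw [← mul_pow]
    apply pow_le_pow_left₀ (Real.iSup_nonneg fun i => apply_nonneg _ _)
    rw [iSup_three w (a + b) (b + c) (c + a), iSup_three w a b c]
    have e1 : w a ≤ max (max (w a) (w b)) (w c) := le_max_of_le_left (le_max_left _ _)
    have e2 : w b ≤ max (max (w a) (w b)) (w c) := le_max_of_le_left (le_max_right _ _)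
    have e3 : w c ≤ max (max (w a) (w b)) (w c) := le_max_right _ _
    have f1 : w (a + b) ≤ w a + w b := w.1.add_le _ _
    have f2 : w (b + c) ≤ w b + w c := w.1.add_le _ _
    have f3 : w (c + a) ≤ w c + w a := w.1.add_le _ _
    refine max_le (max_le ?_ ?_) ?_ <;> linarith
  calc _ ≤ (2 ^ Module.finrank ℚ K * ∏ w : InfinitePlace K,
          (⨆ i : Fin 3, w (![a, b, c] i)) ^ w.mult) *
        ∏ᶠ v : FinitePlace K, ⨆ i : Fin 3, v (![a, b, c] i) := by
        apply mul_le_mul hinf hfin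
        · exact finprod_nonneg fun v => Real.iSup_nonneg fun i => apply_nonneg _ _
        · have : 0 ≤ ∏ w : InfinitePlace K, (⨆ i : Fin 3, w (![a, b, c] i)) ^ w.mult :=
            Finset.prod_nonneg fun w _ => pow_nonneg (Real.iSup_nonneg fun i => apply_nonneg _ _) _
          positivity
    _ = _ := by ring

end Pool.Agent.H59.SH
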