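import Pool.Agent.H59.SH.Abel

/-!
Superexponential height bounds for the solutions of Fermat's equation.
-/

set_option autoImplicit false

namespace Pool.Agent.H59.SH

open NumberField IsDedekindDomain Height Pool.Agent.W7.FH

variable {K : Type} [Field K] [NumberField K]

/-- in the first case, the sums are maximal at the places above `p` -/
lemma sum_eq_of_first (v : FinitePlace K) {p : ℕ} (hp : p.Prime) (hodd : Odd p) {a b c : K}
    (hvp : v (p : K) < 1)
    (hc : c ≠ 0) (h : a ^ p + b ^ p + c ^ p = 0) (hab : v a = v b) (hbc : v b = v c) :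
    v (a + b) = v c := by
  have hvc : 0 < v c := FinitePlace.pos_iff.mpr hc
  have h1 := frob v hp (x := a / c) (y := b / c)
    (by rw [map_div₀, hab, hbc, div_self hvc.ne']) (by rw [map_div₀, hbc, div_self hvc.ne'])
  have h2 : (a / c) ^ p + (b / c) ^ p = -1 := by
    rw [div_pow, div_pow]
    have hcp : c ^ p ≠ 0 := pow_ne_zero p hc
    field_simp
    linear_combination h
  rw [h2, sub_neg_eq_add] at h1
  have h3 : v ((a / c + b / c) ^ p) = 1 := by
    have e : (a / c + b / c) ^ p = -1 + ((a / c + b / c) ^ p + 1) := by ring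
    rw [e, add_eq_of_lt v, map_neg_eq_map, map_one]
    rw [map_neg_eq_map, map_one]
    exact h1.trans_lt hvp
  rw [map_pow] at h3
  have h4 : v (a / c + b / c) = 1 := (pow_eq_one_iff_of_nonneg (apply_nonneg _ _) hp.ne_zero).1 h3
  rw [← add_div, map_div₀, div_eq_one_iff_eq hvc.ne'] at h4
  exact h4

/-- the trivial solutions -/
lemma trivial_of_conf {p : ℕ} (hp : p.Prime) (h5 : 5 ≤ p) {ρ σ a b c : K}
    (h : Conf p ρ σ 1 a b c) (hq : ρ ^ 2 + ρ * σ + σ ^ 2 = 0) :
    a + b + c = 0 ∧ a ^ 2 + a * b + b ^ 2 = 0 := by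
  have hs := h.sum
  have hσ : σ = -1 - ρ := by linear_combination hs
  have hρσ : ρ * σ = 1 := by
    rw [hσ] at hq ⊢
    linear_combination -hq
  have hρ3 : ρ ^ 3 = 1 := by
    rw [hσ] at hq
    linear_combination (ρ - 1) * hq
  have hσ3 : σ ^ 3 = 1 := by
    have : (ρ * σ) ^ 3 = 1 := by rw [hρσ, one_pow]
    rw [mul_pow, hρ3, one_mul] at this
    exact this
  have hmod : p % 3 = 1 ∨ p % 3 = 2 := by
    have h0 : p % 3 ≠ 0 := by
      intro h0
      have h1 : 3 ∣ p := Nat.dvd_of_mod_eq_zero h0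
      rw [Nat.prime_dvd_prime_iff_eq Nat.prime_three hp] at h1
      omega
    omega
  have h7 : ρ ^ p + σ ^ p = -1 := by
    rcases hmod with hmod | hmod
    · obtain ⟨m, rfl⟩ : ∃ m, p = 3 * m + 1 := ⟨p / 3, by omega⟩
      rw [pow_succ, pow_succ, pow_mul, pow_mul, hρ3, hσ3, one_pow, one_mul, one_mul]
      linear_combination hs
    · obtain ⟨m, rfl⟩ : ∃ m, p = 3 * m + 2 := ⟨p / 3, by omega⟩
      rw [pow_add, pow_add, pow_mul, pow_mul, hρ3, hσ3, one_pow, one_mul, one_mul]
      linear_combination hq - hρσ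
  have h8 : ρ ^ p * σ ^ p = 1 := by rw [← mul_pow, hρσ, one_pow]
  have e1 := h.ab
  rw [one_pow] at e1
  have e2 := h.bc
  have e3 := h.ca
  have e4 : 2 * (a + b + c) = 0 := by linear_combination e1 + e2 + e3 + h7
  have e5 : a + b + c = 0 := (mul_eq_zero.mp e4).resolve_left two_ne_zero
  have ea : a = -ρ ^ p := by linear_combination e5 - e2
  have eb : b = -σ ^ p := by linear_combination e5 - e3
  refine ⟨e5, ?_⟩
  rw [ea, eb]
  linear_combination (ρ ^ p + σ ^ p - 1) * h7 - h8

/-- solutions for which the three sums are proportional to `p`-th powers -/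
theorem abel_case {p : ℕ} (hp : p.Prime) (h5 : 5 ≤ p) (hd : ¬ (p : ℤ) ∣ discr K)
    {a b c ρ σ : K} (ha : a ≠ 0) (hb : b ≠ 0) (hc : c ≠ 0) (h : a ^ p + b ^ p + c ^ p = 0)
    (h1 : ∀ v : FinitePlace K, v (p : K) < 1 → v a = v b ∧ v b = v c)
    (hρ : b + c = ρ ^ p * (a + b)) (hσ : c + a = σ ^ p * (a + b))
    (v2 : FinitePlace K) (hv2 : v2 (2 : K) < 1)
    (hv : nrm v2 = 2 ∨ (nrm v2 = 4 ∧ v2 (2 : K) = 1 / 4)) :
    ((p : ℝ) / 3) ^ (Module.finrank ℚ K * p) ≤ 2 ^ Module.finrank ℚ K * mulHeight ![a, b, c] ∨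
      (a + b + c = 0 ∧ a ^ 2 + a * b + b ^ 2 = 0) := by
  have hodd : Odd p := hp.odd_of_ne_two (by omega)
  obtain ⟨s, hs⟩ : ∃ s, s = a + b := ⟨_, rfl⟩
  have hs0 : s ≠ 0 := hs ▸ add_ne_zero_of_fermat hodd hc h
  have hbc0 : b + c ≠ 0 := add_ne_zero_of_fermat hodd ha (by linear_combination h)
  have hca0 : c + a ≠ 0 := add_ne_zero_of_fermat hodd hb (by linear_combination h)
  rw [← hs] at hρ hσ
  have hρ0 : ρ ≠ 0 := by
    rintro rfl
    rw [zero_pow hp.ne_zero, zero_mul] at hρ
    exact hbc0 hρ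
  have hσ0 : σ ≠ 0 := by
    rintro rfl
    rw [zero_pow hp.ne_zero, zero_mul] at hσ
    exact hca0 hσ
  have f1 : a / s + b / s = 1 := by rw [← add_div, ← hs, div_self hs0]
  have f2 : b / s + c / s = ρ ^ p := by rw [← add_div, hρ, mul_div_cancel_right₀ _ hs0]
  have f3 : c / s + a / s = σ ^ p := by rw [← add_div, hσ, mul_div_cancel_right₀ _ hs0]
  have hF : (a / s) ^ p + (b / s) ^ p + (c / s) ^ p = 0 := by
    rw [div_pow, div_pow, div_pow, ← add_div, ← add_div, h, zero_div]
  have hsum : 2 * (a / s + b / s + c / s) = 1 + ρ ^ p + σ ^ p := by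
    linear_combination f1 + f2 + f3
  have hva : ∀ v : FinitePlace K, v (p : K) < 1 → v s = v a ∧ v s = v b ∧ v s = v c := by
    intro v hvp
    obtain ⟨g1, g2⟩ := h1 v hvp
    have := sum_eq_of_first v hp hodd hvp hc h g1 g2
    rw [← hs] at this
    exact ⟨by rw [this, g1, g2], by rw [this, g2], this⟩
  have hq : ∀ {x : K} (v : FinitePlace K), v s = v x → v (x / s) ≤ 1 := by
    intro x v hx
    rw [map_div₀, ← hx, div_self (FinitePlace.pos_iff.mpr hs0).ne']
  have h2 : ∀ v : FinitePlace K, v (p : K) < 1 → v (a / s) ≤ 1 := fun v hvp =>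
    hq v (hva v hvp).1
  have h3 : ∀ v : FinitePlace K, v (p : K) < 1 → v (b / s) ≤ 1 := fun v hvp =>
    hq v (hva v hvp).2.1
  have h4 : ∀ v : FinitePlace K, v (p : K) < 1 → v (c / s) ≤ 1 := fun v hvp =>
    hq v (hva v hvp).2.2
  have h6 : ∀ v : FinitePlace K, v (p : K) < 1 → v ρ ≤ 1 := by
    intro v hvp
    have h7 : v ρ ^ p ≤ 1 := by
      rw [← map_pow, ← f2]
      exact v_add_le v (h3 v hvp) (h4 v hvp)
    exact (pow_le_one_iff_of_nonneg (apply_nonneg _ _) hp.ne_zero).1 h7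
  have h7 : ∀ v : FinitePlace K, v (p : K) < 1 → v σ ≤ 1 := by
    intro v hvp
    have h7 : v σ ^ p ≤ 1 := by
      rw [← map_pow, ← f3]
      exact v_add_le v (h4 v hvp) (h2 v hvp)
    exact (pow_le_one_iff_of_nonneg (apply_nonneg _ _) hp.ne_zero).1 h7
  rcases eq_or_ne (1 + ρ + σ) 0 with h0 | h0
  · right
    have hconf : Conf p ρ σ 1 (a / s) (b / s) (c / s) :=
      ⟨hρ0, hσ0, one_ne_zero, by linear_combination h0, by rw [f1, one_pow], f2, f3, hF⟩
    have hq := hconf.two_adic v2 hv2 hv hp h5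
    obtain ⟨g1, g2⟩ := trivial_of_conf hp h5 hconf hq
    constructor
    · rw [← add_div, ← add_div, div_eq_zero_iff] at g1
      exact g1.resolve_right hs0
    · have e : a ^ 2 + a * b + b ^ 2 = s ^ 2 * ((a / s) ^ 2 + a / s * (b / s) + (b / s) ^ 2) := by
        field_simp
      rw [e, g2, mul_zero]
  · left
    have h8 : ∀ v : FinitePlace K, v (1 + ρ + σ) ≤ v (p : K) * mx v 1 ρ σ := by
      intro v
      rcases (natCast_le_one v p).lt_or_eq with hvp | hvp
      · have h9 := sum_small hp hd h2 h3 h4 h6 h7 hF hsum v hvp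
        have h10 : 1 ≤ mx v 1 ρ σ := by
          unfold mx
          rw [map_one]
          exact le_max_of_le_left (le_max_left _ _)
        exact h9.trans (le_mul_of_one_le_right (apply_nonneg _ _) h10)
      · rw [hvp, one_mul]
        unfold mx
        exact v_add_le v (v_add_le v (le_max_of_le_left (le_max_left _ _))
          (le_max_of_le_left (le_max_right _ _))) (le_max_right _ _)
    have h9 := height_ge_sum (K := K) one_ne_zero hρ0 hσ0 h0 hp.pos h8
    have h10 : mulHeight ![a + b, b + c, c + a] = mulHeight ![1, ρ, σ] ^ p := by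
      have e1 : ![a + b, b + c, c + a] = s • (![1, ρ, σ] ^ p) := by
        ext i
        fin_cases i
        · simp [hs]
        · simp [hρ, mul_comm]
        · simp [hσ, mul_comm]
      rw [e1, mulHeight_smul_eq_mulHeight _ hs0, mulHeight_pow]
    have h11 := mulHeight_sums ha hb hc (hs ▸ hs0) hbc0 hca0
    rw [h10] at h11
    refine le_trans ?_ h11
    rw [pow_mul]
    exact pow_le_pow_left₀ (by positivity) h9 p

end Pool.Agent.H59.SH
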