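import Pool.Agent.H59.SH.Sec

/-!
Elements of a number field which are locally `p`-th powers up to units.
-/

set_option autoImplicit false

namespace Pool.Agent.H59.SH

open NumberField IsDedekindDomain Height Pool.Agent.W7.FH

variable {K : Type} [Field K] [NumberField K]

lemma mk_apply' (w : HeightOneSpectrum (𝓞 K)) (z : K) : FinitePlace.mk w z =
    (WithZeroMulInt.toNNReal (HeightOneSpectrum.absNorm_ne_zero w) (w.valuation K z) : ℝ) := by
  rw [FinitePlace.mk_apply, FinitePlace.norm_embedding, HeightOneSpectrum.adicAbv_def]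

lemma val_pow_of_mk (w : HeightOneSpectrum (𝓞 K)) {z t : K} {n : ℕ}
    (h : FinitePlace.mk w z = FinitePlace.mk w t ^ n) :
    w.valuation K z = w.valuation K t ^ n := by
  rw [← map_pow, mk_apply', mk_apply'] at h
  have h2 : WithZeroMulInt.toNNReal (HeightOneSpectrum.absNorm_ne_zero w) (w.valuation K z) =
      WithZeroMulInt.toNNReal (HeightOneSpectrum.absNorm_ne_zero w) (w.valuation K (t ^ n)) := by
    exact_mod_cast h
  have h3 := (WithZeroMulInt.toNNReal_strictMono
    (HeightOneSpectrum.one_lt_absNorm_nnreal w)).injective h2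
  rw [h3, map_pow]

lemma val_eq_iff (w : HeightOneSpectrum (𝓞 K)) {z t : K} :
    w.valuation K z = w.valuation K t ↔ FinitePlace.mk w z = FinitePlace.mk w t := by
  constructor
  · intro h
    rw [mk_apply', mk_apply', h]
  · intro h
    have := val_pow_of_mk w (z := z) (t := t) (n := 1) (by rw [pow_one]; exact h)
    rwa [pow_one] at this

open Classical in
/-- an integer all of whose valuations are divisible by `p` generates a `p`-th power -/
lemma ideal_pow {p : ℕ} (hp : p ≠ 0) {y : 𝓞 K} (hy : y ≠ 0)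
    (h : ∀ w : HeightOneSpectrum (𝓞 K), ∃ t : K, w.valuation K y = w.valuation K t ^ p) :
    ∃ I : Ideal (𝓞 K), I ^ p = Ideal.span {y} := by
  have hI : (Ideal.span {y} : Ideal (𝓞 K)) ≠ 0 := by
    rw [Ne, Ideal.zero_eq_bot, Ideal.span_singleton_eq_bot]
    exact hy
  obtain ⟨c, hc⟩ : ∃ c : HeightOneSpectrum (𝓞 K) → ℕ, c = fun w =>
    (Associates.mk w.asIdeal).count (Associates.mk (Ideal.span {y} : Ideal (𝓞 K))).factors :=
    ⟨_, rfl⟩
  have hdvd : ∀ w, p ∣ c w := by
    intro w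
    obtain ⟨t, ht⟩ := h w
    have ht0 : w.valuation K t ≠ 0 := by
      intro h0
      rw [h0, zero_pow hp, HeightOneSpectrum.valuation_of_algebraMap] at ht
      exact HeightOneSpectrum.intValuation_ne_zero w y hy ht
    rw [HeightOneSpectrum.valuation_of_algebraMap, HeightOneSpectrum.intValuation_if_neg w hy] at ht
    have h1 : w.valuation K t = WithZero.exp (WithZero.log (w.valuation K t)) :=
      (WithZero.exp_log ht0).symm
    rw [h1, ← WithZero.exp_nsmul, WithZero.exp_inj] at ht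
    have h2 : (c w : ℤ) = p * -(WithZero.log (w.valuation K t)) := by
      rw [hc]
      simp only [nsmul_eq_mul] at ht
      linarith
    exact Int.natCast_dvd_natCast.mp ⟨_, h2⟩
  obtain ⟨f, hf⟩ : ∃ f : HeightOneSpectrum (𝓞 K) → Ideal (𝓞 K), f = fun w =>
    w.asIdeal ^ (c w / p) := ⟨_, rfl⟩
  have hfp : ∀ w, f w ^ p = w.maxPowDividing (Ideal.span {y}) := by
    intro w
    rw [hf, HeightOneSpectrum.maxPowDividing]
    simp only
    rw [← pow_mul, Nat.div_mul_cancel (hdvd w), hc]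
  have hsup : Function.HasFiniteMulSupport f := by
    refine Set.Finite.subset (Ideal.hasFiniteMulSupport hI) ?_
    intro w hw
    rw [Function.mem_mulSupport] at hw ⊢
    intro h1
    apply hw
    rw [← hfp w] at h1
    rw [Ideal.one_eq_top, ← Ideal.isUnit_iff]
    exact IsUnit.of_pow_eq_one h1 hp
  refine ⟨∏ᶠ w, f w, ?_⟩
  rw [finprod_pow hsup, finprod_congr hfp]
  exact Ideal.finprod_heightOneSpectrum_factorization hI

/-- an element all of whose valuations are divisible by `p` is a unit times a `p`-th power if `p`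
does not divide the class number -/
theorem unit_mul_pow {p : ℕ} (hp : p ≠ 0) (hcl : p.Coprime (classNumber K)) {x : K} (hx : x ≠ 0)
    (h : ∀ v : FinitePlace K, ∃ t : K, v x = v t ^ p) :
    ∃ (u : (𝓞 K)ˣ) (r : K), r ≠ 0 ∧ x = (u : 𝓞 K) * r ^ p := by
  obtain ⟨n, d, hd, hnd⟩ := IsFractionRing.div_surjective (A := 𝓞 K) x
  have hd0 : d ≠ 0 := nonZeroDivisors.ne_zero hd
  have hdK : (d : K) ≠ 0 := by exact_mod_cast hd0
  have hn0 : n ≠ 0 := by
    rintro rfl
    rw [map_zero, zero_div] at hnd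
    exact hx hnd.symm
  obtain ⟨k, rfl⟩ : ∃ k, p = k + 1 := ⟨p - 1, by omega⟩
  obtain ⟨y, hy⟩ : ∃ y, y = n * d ^ k := ⟨_, rfl⟩
  have hy0 : y ≠ 0 := by rw [hy]; exact mul_ne_zero hn0 (pow_ne_zero _ hd0)
  have hxy : (y : K) = x * (d : K) ^ (k + 1) := by
    rw [hy, ← hnd]
    simp only [map_mul, map_pow]
    field_simp
    show algebraMap (𝓞 K) K n * algebraMap (𝓞 K) K d ^ k * algebraMap (𝓞 K) K d =
      algebraMap (𝓞 K) K n * algebraMap (𝓞 K) K d ^ (k + 1)
    ring
  obtain ⟨I, hI⟩ := ideal_pow hp hy0 (fun w => by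
    obtain ⟨t, ht⟩ := h (FinitePlace.mk w)
    refine ⟨t * d, val_pow_of_mk w ?_⟩
    rw [hxy, map_mul, map_pow, ht, map_mul, mul_pow])
  have hprin : I.IsPrincipal := by
    refine Ideal.IsPrincipal.of_isPrincipal_pow_of_coprime (n := k + 1) ?_ ?_
    · exact hcl
    · rw [hI]
      exact ⟨y, rfl⟩
  obtain ⟨r, hr⟩ := hprin
  have hr' : I = Ideal.span {r} := hr
  rw [hr', Ideal.span_singleton_pow, Ideal.span_singleton_eq_span_singleton] at hI
  obtain ⟨u, hu⟩ := hI
  have hr0 : r ≠ 0 := by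
    rintro rfl
    rw [zero_pow hp, zero_mul] at hu
    exact hy0 hu.symm
  have hrK : (r : K) ≠ 0 := by exact_mod_cast hr0
  refine ⟨u, r / d, div_ne_zero hrK hdK, ?_⟩
  have h3 : (y : K) = (r : K) ^ (k + 1) * ((u : 𝓞 K) : K) := by
    rw [← hu]
    simp only [map_mul, map_pow]
  rw [hxy] at h3
  rw [div_pow, mul_div_assoc', eq_div_iff (pow_ne_zero _ hdK), h3]
  ring

/-- units are `p`-th powers if there is only one infinite place and `p ≥ 5` (and `[K : ℚ] ≤ 2`) -/
theorem unit_pow (hone : Subsingleton (InfinitePlace K)) {p : ℕ} (hp : p.Prime)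
    (hd : Module.finrank ℚ K + 1 < p) (u : (𝓞 K)ˣ) : ∃ w : (𝓞 K)ˣ, u = w ^ p := by
  classical
  have htor : ∀ u : (𝓞 K)ˣ, u ∈ Units.torsion K := by
    intro u
    rw [Units.mem_torsion]
    intro w
    have h1 := InfinitePlace.prod_eq_abs_norm (K := K) ((u : 𝓞 K) : K)
    have h2 : |Algebra.norm ℚ ((u : 𝓞 K) : K)| = 1 := by
      have := isUnit_iff_norm.mp u.isUnit
      rw [← this]
      rfl
    rw [h2] at h1
    have h3 : ∏ w : InfinitePlace K, w ((u : 𝓞 K) : K) ^ w.mult = w ((u : 𝓞 K) : K) ^ w.mult :=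
      Fintype.prod_subsingleton _ w
    rw [h3, Rat.cast_one] at h1
    have h4 : (0 : ℕ) ≠ w.mult := (InfinitePlace.mult_pos (w := w)).ne
    exact (pow_eq_one_iff_of_nonneg (apply_nonneg _ _) h4.symm).1 h1
  have hcop : (Nat.card (Units.torsion K)).Coprime p := by
    rw [Nat.coprime_comm, Nat.Prime.coprime_iff_not_dvd hp]
    intro hdvd
    have := Fact.mk hp
    have : Fintype (Units.torsion K) := Fintype.ofFinite _
    rw [Nat.card_eq_fintype_card] at hdvd
    obtain ⟨ζ, hζ⟩ := exists_prime_orderOf_dvd_card p hdvd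
    have h1 : IsPrimitiveRoot (((ζ : (𝓞 K)ˣ) : 𝓞 K) : K) p := by
      have h2 : IsPrimitiveRoot ζ p := hζ ▸ IsPrimitiveRoot.orderOf ζ
      have h3 : IsPrimitiveRoot (ζ : (𝓞 K)ˣ) p :=
        h2.map_of_injective (f := (Units.torsion K).subtype) Subtype.coe_injective
      have h4 : IsPrimitiveRoot ((ζ : (𝓞 K)ˣ) : 𝓞 K) p := IsPrimitiveRoot.coe_units_iff.mpr h3
      exact h4.map_of_injective (f := algebraMap (𝓞 K) K)
        (FaithfulSMul.algebraMap_injective (𝓞 K) K)
    have h5 := h1.totient_le_degree_minpoly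
    rw [Nat.totient_prime hp] at h5
    have h6 : (minpoly ℤ (((ζ : (𝓞 K)ˣ) : 𝓞 K) : K)).natDegree ≤ Module.finrank ℚ K := by
      have h7 : IsIntegral ℤ (((ζ : (𝓞 K)ˣ) : 𝓞 K) : K) := ((ζ : (𝓞 K)ˣ) : 𝓞 K).2
      have h8 := minpoly.isIntegrallyClosed_eq_field_fractions' ℚ h7
      have h9 : (minpoly ℚ (((ζ : (𝓞 K)ˣ) : 𝓞 K) : K)).natDegree =
          (minpoly ℤ (((ζ : (𝓞 K)ˣ) : 𝓞 K) : K)).natDegree := by
        rw [h8]
        exact (minpoly.monic h7).natDegree_map _
      rw [← h9]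
      exact minpoly.natDegree_le _
    omega
  obtain ⟨z, hz⟩ := (powCoprime hcop).surjective ⟨u, htor u⟩
  refine ⟨z, ?_⟩
  have := congrArg Subtype.val hz
  rw [powCoprime_apply] at this
  exact this.symm

end Pool.Agent.H59.SH
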