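import Pool.Agent.H59.SH.Main

/-!
Imaginary quadratic fields.
-/

set_option autoImplicit false

namespace Pool.Agent.H59.SH

open NumberField IsDedekindDomain Height Pool.Agent.W7.FH

variable {K : Type} [Field K] [NumberField K]

lemma one_place (h2 : Module.finrank ℚ K = 2) (him : IsEmpty (K →+* ℝ)) :
    Subsingleton (InfinitePlace K) := by
  classical
  have h1 := InfinitePlace.card_add_two_mul_card_eq_rank K
  have h3 : InfinitePlace.nrRealPlaces K = 0 := by
    rw [InfinitePlace.nrRealPlaces, Fintype.card_eq_zero_iff]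
    exact ⟨fun w => him.false (InfinitePlace.embedding_of_isReal w.2)⟩
  have h4 := InfinitePlace.card_eq_nrRealPlaces_add_nrComplexPlaces K
  rw [h2, h3] at h1
  rw [h3] at h4
  rw [← Fintype.card_le_one_iff_subsingleton]
  omega

lemma exists_place_two (h2 : Module.finrank ℚ K = 2) : ∃ v : FinitePlace K, v (2 : K) < 1 ∧
    (nrm v = 2 ∨ (nrm v = 4 ∧ v (2 : K) = 1 / 4)) := by
  classical
  have hinj : Function.Injective (algebraMap (𝓞 K) K) := FaithfulSMul.algebraMap_injective (𝓞 K) K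
  have hnu : ¬ IsUnit (2 : 𝓞 K) := by
    intro hu
    have h3 := isUnit_iff_norm.mp hu
    have h4 : ((RingOfIntegers.norm ℚ (2 : 𝓞 K) : 𝓞 ℚ) : ℚ) = 4 := by
      have e : (((2 : 𝓞 K)) : K) = algebraMap ℚ K 2 := by
        rw [map_ofNat]
        exact map_ofNat (algebraMap (𝓞 K) K) 2
      rw [RingOfIntegers.coe_norm, e, Algebra.norm_algebraMap, h2]
      norm_num
    rw [h4] at h3
    norm_num at h3
  obtain ⟨M, hM, h2M⟩ := exists_max_ideal_of_mem_nonunits hnu
  have hM0 : M ≠ ⊥ := by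
    rintro rfl
    rw [Ideal.mem_bot] at h2M
    have := congrArg (algebraMap (𝓞 K) K) h2M
    simp at this
  obtain ⟨w, hw⟩ : ∃ w : HeightOneSpectrum (𝓞 K), w = ⟨M, hM.isPrime, hM0⟩ := ⟨_, rfl⟩
  obtain ⟨v, hvd⟩ : ∃ v, v = FinitePlace.mk w := ⟨_, rfl⟩
  have hvw : v.maximalIdeal = w := by rw [hvd]; exact FinitePlace.maximalIdeal_mk w
  have h2v : ((2 : 𝓞 K)) ∈ v.maximalIdeal.asIdeal := by rw [hvw, hw]; exact h2M
  have hlt : v (2 : K) < 1 := by
    have := (mem_iff_lt_one v (2 : 𝓞 K)).1 h2v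
    have e : (((2 : 𝓞 K)) : K) = 2 := map_ofNat (algebraMap (𝓞 K) K) 2
    rwa [e] at this
  refine ⟨v, hlt, ?_⟩
  have hge := prime_ge v (p := 2) two_pos
  rw [h2] at hge
  push_cast at hge
  have hle := le_inv_nrm v hlt
  have h5 := one_lt_nrm v
  have h6 : ((nrm v : ℕ) : ℝ) ≤ 4 := by
    have h7 : ((2 : ℝ) ^ 2)⁻¹ ≤ ((nrm v : ℕ) : ℝ)⁻¹ := hge.trans hle
    have h8 : (0 : ℝ) < nrm v := by exact_mod_cast (by omega : 0 < nrm v)
    rw [inv_le_inv₀ (by positivity) h8] at h7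
    linarith
  have h7 : nrm v ≤ 4 := by exact_mod_cast h6
  have h8 : nrm v ≠ 3 := by
    intro h3
    have h9 : ((nrm v : ℕ) : 𝓞 K) ∈ v.maximalIdeal.asIdeal := Ideal.absNorm_mem _
    rw [h3] at h9
    apply v.maximalIdeal.isPrime.ne_top
    rw [Ideal.eq_top_iff_one]
    have h10 := Ideal.sub_mem _ h9 h2v
    have e : (((3 : ℕ) : 𝓞 K) - 2) = 1 := by push_cast; norm_num
    rwa [e] at h10
  rcases (by omega : nrm v = 2 ∨ nrm v = 4) with h9 | h9
  · exact Or.inl h9
  · right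
    refine ⟨h9, le_antisymm ?_ ?_⟩
    · rw [h9] at hle
      refine hle.trans (by norm_num)
    · refine le_trans (by norm_num) hge

/-- imaginary quadratic fields, the first case -/
theorem first_quad (h2 : Module.finrank ℚ K = 2) (him : IsEmpty (K →+* ℝ)) {p : ℕ} (hp : p.Prime)
    (h5 : 5 ≤ p) (hd : ¬ (p : ℤ) ∣ discr K) (hcl : ¬ p ∣ classNumber K)
    {a b c : K} (ha : a ≠ 0) (hb : b ≠ 0) (hc : c ≠ 0) (h : a ^ p + b ^ p + c ^ p = 0)
    (h1 : ∀ v : FinitePlace K, v (p : K) < 1 → v a = v b ∧ v b = v c) :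
    ((p : ℝ) / 3) ^ (2 * p) ≤ 4 * mulHeight ![a, b, c] ∨
      (a + b + c = 0 ∧ a ^ 2 + a * b + b ^ 2 = 0) := by
  have hodd : Odd p := hp.odd_of_ne_two (by omega)
  have hdeg : Module.finrank ℚ K + 1 < p := by omega
  have hone := one_place h2 him
  obtain ⟨v2, hv2, hv⟩ := exists_place_two h2
  have hcop : p.Coprime (classNumber K) := (Nat.Prime.coprime_iff_not_dvd hp).2 hcl
  have hab0 : a + b ≠ 0 := add_ne_zero_of_fermat hodd hc h
  have hbc0 : b + c ≠ 0 := add_ne_zero_of_fermat hodd ha (by linear_combination h)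
  have hca0 : c + a ≠ 0 := add_ne_zero_of_fermat hodd hb (by linear_combination h)
  have key : ∀ {x : K}, x ≠ 0 → (∀ v : FinitePlace K, ∃ t : K, t ≠ 0 ∧ v x = v t ^ p * mx v a b c) →
      ∃ r : K, x = r ^ p * (a + b) := by
    intro x hx hloc
    obtain ⟨u, r, hr, e⟩ := unit_mul_pow (K := K) hp.ne_zero hcop (x := x / (a + b))
      (div_ne_zero hx hab0) (by
        intro v
        obtain ⟨t, ht, e1⟩ := hloc v
        obtain ⟨t', ht', e2⟩ := local_pow v hp hdeg hb hc h (h1 v)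
        refine ⟨t / t', ?_⟩
        have hm : mx v a b c ≠ 0 := by
          have : 0 < v c := FinitePlace.pos_iff.mpr hc
          exact (this.trans_le (le_max_right _ _)).ne'
        rw [map_div₀, e1, e2, map_div₀, div_pow]
        field_simp)
    obtain ⟨w, hw⟩ := unit_pow hone hp hdeg u
    refine ⟨((w : 𝓞 K) : K) * r, ?_⟩
    rw [div_eq_iff hab0] at e
    rw [e, hw, mul_pow]
    push_cast
    rfl
  obtain ⟨ρ, hρ⟩ := key hbc0 (fun v => by
    have h6 := local_pow v hp hdeg hc ha (a := b) (b := c) (c := a) (by linear_combination h)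
      (fun hvp => ⟨(h1 v hvp).2, ((h1 v hvp).1.trans (h1 v hvp).2).symm⟩)
    rw [mx_rot] at h6
    exact h6)
  obtain ⟨σ, hσ⟩ := key hca0 (fun v => by
    have h6 := local_pow v hp hdeg ha hb (a := c) (b := a) (c := b) (by linear_combination h)
      (fun hvp => ⟨((h1 v hvp).1.trans (h1 v hvp).2).symm, (h1 v hvp).1⟩)
    rw [mx_rot, mx_rot] at h6
    exact h6)
  have := abel_case hp h5 hd ha hb hc h h1 hρ hσ v2 hv2 hv
  rw [h2] at this
  norm_num at this
  exact this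

lemma numeric {p : ℕ} (h5 : 5 ≤ p) : (p : ℝ) ^ (p - 2) ≤ ((p : ℝ) / 3) ^ (2 * p) := by
  have h1 : (9 : ℝ) ^ p ≤ (p : ℝ) ^ (p + 2) := by
    rcases le_or_gt 9 p with h9 | h9
    · calc (9 : ℝ) ^ p ≤ (p : ℝ) ^ p := by
            gcongr
            exact_mod_cast h9
        _ ≤ _ := pow_le_pow_right₀ (by exact_mod_cast (by omega : 1 ≤ p)) (by omega)
    · interval_cases p <;> norm_num
  have hp : (0 : ℝ) < p := by exact_mod_cast (by omega : 0 < p)
  rw [div_pow, le_div_iff₀ (by positivity), pow_mul, pow_mul]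
  norm_num
  calc (p : ℝ) ^ (p - 2) * 9 ^ p ≤ (p : ℝ) ^ (p - 2) * (p : ℝ) ^ (p + 2) := by gcongr
    _ = _ := by
      rw [← pow_add, ← pow_mul]
      congr 1
      omega

end Pool.Agent.H59.SH
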