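import Pool.Agent.H59.SH.TwoA

/-!
Local structure of the solutions of Fermat's equation at a finite place.
-/

set_option autoImplicit false

namespace Pool.Agent.H59.SH

open NumberField IsDedekindDomain Height Pool.Agent.W7.FH

variable {K : Type} [Field K] [NumberField K]

section

variable (v : FinitePlace K)

/-- Frobenius modulo `p` -/
lemma frob {p : ℕ} (hp : p.Prime) {x y : K} (hx : v x ≤ 1) (hy : v y ≤ 1) :
    v ((x + y) ^ p - (x ^ p + y ^ p)) ≤ v (p : K) := by
  obtain ⟨n, rfl⟩ : ∃ n, p = n + 1 := ⟨p - 1, by have := hp.pos; omega⟩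
  have h1 : (x + y) ^ (n + 1) - (x ^ (n + 1) + y ^ (n + 1)) =
      ∑ k ∈ Finset.range n, x ^ (k + 1) * y ^ (n - k) * ((n + 1).choose (k + 1) : K) := by
    rw [add_pow, Finset.sum_range_succ, Finset.sum_range_succ']
    have e1 : ∀ k ∈ Finset.range n, x ^ (k + 1) * y ^ (n + 1 - (k + 1)) *
        (((n + 1).choose (k + 1) : ℕ) : K) =
        x ^ (k + 1) * y ^ (n - k) * ((n + 1).choose (k + 1) : K) := by
      intro k _
      have : n + 1 - (k + 1) = n - k := by omega
      rw [this]
    rw [Finset.sum_congr rfl e1]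
    simp only [mul_one, pow_zero, Nat.choose_zero_right, Nat.cast_one, Nat.choose_self,
      Nat.sub_self, Nat.sub_zero, one_mul]
    ring
  rw [h1]
  apply v_sum_le v _ _ (apply_nonneg _ _)
  intro k hk
  rw [Finset.mem_range] at hk
  obtain ⟨c, hc⟩ := hp.dvd_choose_self (by omega : k + 1 ≠ 0) (by omega)
  rw [hc, Nat.cast_mul, map_mul v (x ^ (k + 1) * y ^ (n - k)), map_mul v ((n + 1 : ℕ) : K)]
  have h2 : v (x ^ (k + 1) * y ^ (n - k)) ≤ 1 :=
    v_mul_le_one v (v_pow_le_one v hx _) (v_pow_le_one v hy _)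
  calc v (x ^ (k + 1) * y ^ (n - k)) * (v ((n + 1 : ℕ) : K) * v (c : K)) ≤
        1 * (v ((n + 1 : ℕ) : K) * 1) := by
        gcongr
        exact natCast_le_one v c
    _ = _ := by ring

lemma le_of_fermat {p : ℕ} (hp0 : p ≠ 0) {a b c : K} (h : a ^ p + b ^ p + c ^ p = 0) :
    v c ≤ max (v a) (v b) := by
  have h2 : c ^ p = -(a ^ p + b ^ p) := by linear_combination h
  have h3 : v c ^ p ≤ (max (v a) (v b)) ^ p := by
    rw [← map_pow, h2, map_neg_eq_map]
    refine (FinitePlace.add_le v _ _).trans (max_le ?_ ?_)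
    · rw [map_pow]
      exact pow_le_pow_left₀ (apply_nonneg _ _) (le_max_left _ _) _
    · rw [map_pow]
      exact pow_le_pow_left₀ (apply_nonneg _ _) (le_max_right _ _) _
  exact le_of_pow_le_pow_left₀ hp0 (le_max_of_le_left (apply_nonneg _ _)) h3

/-- the exact value of `|a + b|` if it is not maximal -/
lemma local_exact {p : ℕ} (hp : p.Prime) (hd : Module.finrank ℚ K + 1 < p) {a b c : K}
    (hb : b ≠ 0) (h : a ^ p + b ^ p + c ^ p = 0) (hlt : v (a + b) < mx v a b c) :
    v a = v b ∧ v c < v b ∧ mx v a b c = v b ∧ v (p : K) * v (a + b) = v (c / b) ^ p * v b := by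
  obtain ⟨n, hn⟩ : ∃ n, n = Module.finrank ℚ K := ⟨_, rfl⟩
  rw [← hn] at hd
  have hnpos : 0 < n := by rw [hn]; exact Module.finrank_pos
  have hodd : Odd p := hp.odd_of_ne_two (by omega)
  have hvb : 0 < v b := FinitePlace.pos_iff.mpr hb
  have h1 := le_of_fermat v hp.ne_zero h
  unfold mx at hlt ⊢
  rw [max_eq_left h1] at hlt ⊢
  have h2 : v a = v b := by
    rcases lt_trichotomy (v a) (v b) with h3 | h3 | h3
    · exfalso
      rw [add_comm, add_eq_of_lt v h3, max_eq_right h3.le] at hlt
      exact lt_irrefl _ hlt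
    · exact h3
    · exfalso
      rw [add_eq_of_lt v h3, max_eq_left h3.le] at hlt
      exact lt_irrefl _ hlt
  rw [h2, max_self] at hlt ⊢
  obtain ⟨t, ht⟩ : ∃ t : K, t = -(a + b) / b := ⟨_, rfl⟩
  have hvt : v t = v (a + b) / v b := by
    rw [ht, map_div₀, map_neg_eq_map]
  have hvt1 : v t < 1 := by rw [hvt, div_lt_one hvb]; exact hlt
  have hvt0 : 0 ≤ v t := apply_nonneg _ _
  have h3 : (1 + t) ^ p - 1 = (c / b) ^ p := by
    have h4 : 1 + t = -(a / b) := by rw [ht]; field_simp; ring
    rw [h4, hodd.neg_pow, div_pow, div_pow, eq_div_iff (pow_ne_zero p hb), sub_mul, neg_mul,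
      div_mul_cancel₀ _ (pow_ne_zero p hb)]
    linear_combination -h
  have h5 : v t ^ (p - 1) < v (p : K) := by
    have hpR : (1 : ℝ) < p := by exact_mod_cast hp.one_lt
    rcases (natCast_le_one v p).lt_or_eq with h6 | h6
    · have h7 := nrm_ge v hp h6
      have h8 : v t ≤ ((p : ℕ) : ℝ)⁻¹ := (le_inv_nrm v hvt1).trans (by
        apply inv_anti₀ (by positivity)
        exact_mod_cast h7)
      calc v t ^ (p - 1) ≤ (((p : ℕ) : ℝ)⁻¹) ^ (p - 1) := pow_le_pow_left₀ hvt0 h8 _
        _ = ((p : ℝ) ^ (p - 1))⁻¹ := by rw [inv_pow]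
        _ < ((p : ℝ) ^ n)⁻¹ := by
            apply inv_strictAnti₀ (by positivity)
            exact pow_lt_pow_right₀ hpR (by omega)
        _ ≤ v (p : K) := by rw [hn]; exact prime_ge v hp.pos
    · rw [h6]
      exact pow_lt_one₀ hvt0 hvt1 (by omega)
  have h6 := one_add_pow v hp hvt1 h5
  rw [h3, map_pow] at h6
  have h8 : v (a + b) = v t * v b := by rw [hvt]; field_simp
  have hcb : v (c / b) < 1 := by
    by_contra hcon
    push Not at hcon
    have h7 := one_le_pow₀ (n := p) hcon
    rw [h6] at h7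
    have h8 : v (p : K) * v t ≤ 1 * v t := mul_le_mul_of_nonneg_right (natCast_le_one v p) hvt0
    linarith
  refine ⟨rfl, ?_, rfl, ?_⟩
  · rwa [map_div₀, div_lt_one hvb] at hcb
  · rw [h8, h6]
    ring

/-- at a place above `p` where `c` is smaller than `a` and `b`, the sum `a + b` is not maximal -/
lemma lt_of_second {p : ℕ} (hp : p.Prime) (hp2 : p ≠ 2) {a b c : K} (hvp : v (p : K) < 1)
    (hb : b ≠ 0) (h : a ^ p + b ^ p + c ^ p = 0) (hab : v a = v b) (hcb : v c < v b) :
    v (a + b) < v b := by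
  have hodd : Odd p := hp.odd_of_ne_two hp2
  have hvb : 0 < v b := FinitePlace.pos_iff.mpr hb
  have h1 := frob v hp (x := a / b) (y := 1) (by rw [map_div₀, hab, div_self hvb.ne'])
    (by rw [map_one])
  have h2 : v ((a / b + 1) ^ p) < 1 := by
    have e : (a / b + 1) ^ p = ((a / b + 1) ^ p - ((a / b) ^ p + 1 ^ p)) + -(c / b) ^ p := by
      have : (a / b) ^ p + 1 ^ p = -(c / b) ^ p := by
        rw [one_pow, div_pow, div_pow]
        have hbp : b ^ p ≠ 0 := pow_ne_zero p hb
        field_simp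
        linear_combination h
      rw [this]
      ring
    rw [e]
    refine v_add_lt v (h1.trans_lt hvp) ?_
    rw [map_neg_eq_map, map_pow, map_div₀]
    apply pow_lt_one₀ (by positivity) _ hp.ne_zero
    rw [div_lt_one hvb]
    exact hcb
  rw [map_pow] at h2
  have h3 : v (a / b + 1) < 1 := by
    by_contra hcon
    push Not at hcon
    have := one_le_pow₀ hcon (n := p)
    linarith
  have e : a + b = (a / b + 1) * b := by field_simp
  rw [e, map_mul]
  exact mul_lt_of_lt_one_left hvb h3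

end

/-- one of the three absolute values is smaller than the other two, which are equal -/
lemma small_one (v : FinitePlace K) {p : ℕ} (hp0 : p ≠ 0) {a b c : K}
    (h : a ^ p + b ^ p + c ^ p = 0) (hne : ¬ (v a = v b ∧ v b = v c)) :
    (v a = v b ∧ v c < v b) ∨ (v b = v c ∧ v a < v c) ∨ (v c = v a ∧ v b < v a) := by
  have h1 := le_of_fermat v hp0 h
  have h2 := le_of_fermat v hp0 (show b ^ p + c ^ p + a ^ p = 0 by linear_combination h)
  have h3 := le_of_fermat v hp0 (show c ^ p + a ^ p + b ^ p = 0 by linear_combination h)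
  rcases lt_trichotomy (v a) (v b) with h4 | h4 | h4
  · right; left
    have h5 : v b = v c := by
      rcases le_max_iff.1 h3 with h6 | h6
      · refine le_antisymm h6 ?_
        rw [max_eq_right h4.le] at h1
        exact h1
      · exact absurd h4 (not_lt.mpr h6)
    exact ⟨h5, by rw [← h5]; exact h4⟩
  · left
    refine ⟨h4, ?_⟩
    rw [h4, max_self] at h1
    refine lt_of_le_of_ne h1 fun h5 => hne ⟨h4, h5.symm⟩
  · right; right
    have h5 : v c = v a := by
      rcases le_max_iff.1 h2 with h6 | h6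
      · exact absurd h4 (not_lt.mpr h6)
      · refine le_antisymm ?_ h6
        rw [max_eq_left h4.le] at h1
        exact h1
    exact ⟨h5, h4⟩

/-- **the second case**: if the absolute values at some place above `p` are not all equal, the
height is superexponential -/
theorem second_case {p : ℕ} (hp : p.Prime) (hd : Module.finrank ℚ K + 1 < p) {a b c : K}
    (ha : a ≠ 0) (hb : b ≠ 0) (hc : c ≠ 0) (h : a ^ p + b ^ p + c ^ p = 0) (v : FinitePlace K)
    (hvp : v (p : K) < 1) (hne : ¬ (v a = v b ∧ v b = v c)) :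
    (p : ℝ) ^ (p - Module.finrank ℚ K) ≤ 2 ^ Module.finrank ℚ K * mulHeight ![a, b, c] := by
  have key : ∀ {a b c : K}, a ≠ 0 → b ≠ 0 → c ≠ 0 → a ^ p + b ^ p + c ^ p = 0 →
      v a = v b → v c < v b →
      (p : ℝ) ^ (p - Module.finrank ℚ K) ≤ 2 ^ Module.finrank ℚ K * mulHeight ![a, b, c] := by
    intro a b c ha hb hc h hab hcb
    have hp0 : (0 : ℝ) < p := by exact_mod_cast hp.pos
    have hp1 : (1 : ℝ) ≤ p := by exact_mod_cast hp.one_le
    have hf : 0 < Module.finrank ℚ K := Module.finrank_pos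
    have h1 := lt_of_second v hp (by omega) hvp hb h hab hcb
    have hodd : Odd p := hp.odd_of_ne_two (by omega)
    have h2 : v (a + b) < max (max (v a) (v b)) (v c) :=
      h1.trans_le (le_max_of_le_left (le_max_right _ _))
    refine height_ge ha hb hc (add_ne_zero_of_fermat hodd hc h) v (by positivity) ?_
    refine local_small v hp.two_le ?_ hb h h2 ?_ ?_
    · intro q hq hqp
      rw [Nat.prime_dvd_prime_iff_eq hq hp] at hqp
      rw [hqp]
      exact hd
    · have h3 := nrm_ge v hp hvp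
      calc (p : ℝ) ^ (p - Module.finrank ℚ K) ≤ (p : ℝ) ^ p :=
            pow_le_pow_right₀ hp1 (Nat.sub_le _ _)
        _ ≤ _ := by
            gcongr
    · rw [hp.minFac_eq, ← pow_add, Nat.sub_add_cancel (by omega)]
  rcases small_one v hp.ne_zero h hne with ⟨h1, h2⟩ | ⟨h1, h2⟩ | ⟨h1, h2⟩
  · exact key ha hb hc h h1 h2
  · rw [← mulHeight_rot]
    exact key hb hc ha (by linear_combination h) h1 h2
  · rw [← mulHeight_rot, ← mulHeight_rot]
    exact key hc ha hb (by linear_combination h) h1 h2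

/-- `|a + b|` is the maximum times a `p`-th power -/
lemma local_pow (v : FinitePlace K) {p : ℕ} (hp : p.Prime) (hd : Module.finrank ℚ K + 1 < p)
    {a b c : K} (hb : b ≠ 0) (hc : c ≠ 0) (h : a ^ p + b ^ p + c ^ p = 0)
    (hv : v (p : K) < 1 → v a = v b ∧ v b = v c) :
    ∃ t : K, t ≠ 0 ∧ v (a + b) = v t ^ p * mx v a b c := by
  rcases (FinitePlace.add_le v a b).trans (le_max_left _ (v c)) |>.lt_or_eq with h1 | h1
  · obtain ⟨e1, e2, e3, e4⟩ := local_exact v hp hd hb h h1
    rcases (natCast_le_one v p).lt_or_eq with h2 | h2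
    · exfalso
      have := (hv h2).2
      linarith
    · refine ⟨c / b, div_ne_zero hc hb, ?_⟩
      rw [h2, one_mul] at e4
      rw [e3, e4]
  · exact ⟨1, one_ne_zero, by rw [map_one, one_pow, one_mul]; exact h1⟩

end Pool.Agent.H59.SH
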