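import Pool.Agent.H59.L.S8.W7.FH.Gm

/-!
Power sums of three numbers with sum zero, two-adically.
-/

set_option autoImplicit false

namespace Pool.Agent.H59.SH

open NumberField IsDedekindDomain Pool.Agent.W7.FH

variable {K : Type} [Field K] [NumberField K]

section Basics

variable (v : FinitePlace K)

lemma v_sub_le (x y : K) : v (x - y) ≤ max (v x) (v y) := by
  have h := FinitePlace.add_le v x (-y)
  rwa [map_neg_eq_map, ← sub_eq_add_neg] at h

lemma v_add_le {x y : K} {r : ℝ} (hx : v x ≤ r) (hy : v y ≤ r) : v (x + y) ≤ r :=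
  (FinitePlace.add_le v x y).trans (max_le hx hy)

lemma v_sub_le' {x y : K} {r : ℝ} (hx : v x ≤ r) (hy : v y ≤ r) : v (x - y) ≤ r :=
  (v_sub_le v x y).trans (max_le hx hy)

lemma v_add_lt {x y : K} {r : ℝ} (hx : v x < r) (hy : v y < r) : v (x + y) < r :=
  (FinitePlace.add_le v x y).trans_lt (max_lt hx hy)

lemma v_sub_lt {x y : K} {r : ℝ} (hx : v x < r) (hy : v y < r) : v (x - y) < r :=
  (v_sub_le v x y).trans_lt (max_lt hx hy)

lemma v_mul_le_one {x y : K} (hx : v x ≤ 1) (hy : v y ≤ 1) : v (x * y) ≤ 1 := by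
  rw [map_mul]
  exact mul_le_one₀ hx (apply_nonneg _ _) hy

lemma v_pow_le_one {x : K} (hx : v x ≤ 1) (n : ℕ) : v (x ^ n) ≤ 1 := by
  rw [map_pow]
  exact pow_le_one₀ (apply_nonneg _ _) hx

lemma v_sum_le {ι : Type} (s : Finset ι) (f : ι → K) {r : ℝ} (hr : 0 ≤ r)
    (h : ∀ i ∈ s, v (f i) ≤ r) : v (∑ i ∈ s, f i) ≤ r := by
  classical
  induction s using Finset.induction_on with
  | empty => simpa using hr
  | insert a s ha ih =>
    rw [Finset.sum_insert ha]
    exact v_add_le v (h a (Finset.mem_insert_self _ _))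
      (ih fun i hi => h i (Finset.mem_insert_of_mem hi))

lemma v_ofNat_le (m : ℕ) : v (m : K) ≤ 1 := natCast_le_one v m

lemma v_odd (h2 : v (2 : K) < 1) {n : ℕ} (hn : Odd n) : v (n : K) = 1 := by
  obtain ⟨k, rfl⟩ := hn
  have h1 : ((2 * k + 1 : ℕ) : K) = 1 + 2 * (k : K) := by push_cast; ring
  rw [h1]
  have h3 : v (2 * (k : K)) < v (1 : K) := by
    rw [map_mul, map_one]
    calc v (2 : K) * v (k : K) ≤ v (2 : K) * 1 :=
          mul_le_mul_of_nonneg_left (natCast_le_one v k) (apply_nonneg _ _)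
      _ < 1 := by rw [mul_one]; exact h2
  rw [add_eq_of_lt v h3, map_one]

lemma v_two_pos : 0 < v (2 : K) := FinitePlace.pos_iff.mpr two_ne_zero

lemma v_nat_pos {n : ℕ} (hn : n ≠ 0) : 0 < v (n : K) :=
  FinitePlace.pos_iff.mpr (by exact_mod_cast hn)

/-- `|n|` is a power of `|2|` -/
lemma v_nat_eq (h2 : v (2 : K) < 1) {n : ℕ} (hn : n ≠ 0) :
    ∃ k u : ℕ, n = 2 ^ k * u ∧ Odd u ∧ v (n : K) = v (2 : K) ^ k := by
  obtain ⟨k, u, hu, e⟩ := Nat.exists_eq_two_pow_mul_odd hn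
  refine ⟨k, u, e, hu, ?_⟩
  rw [e]
  push_cast
  rw [map_mul, map_pow, v_odd v h2 hu, mul_one]

lemma v_even_le (h2 : v (2 : K) < 1) {n : ℕ} (hn : Even n) : v (n : K) ≤ v (2 : K) := by
  obtain ⟨k, rfl⟩ := hn
  have : ((k + k : ℕ) : K) = 2 * (k : K) := by push_cast; ring
  rw [this, map_mul]
  exact mul_le_of_le_one_right (apply_nonneg _ _) (natCast_le_one v k)

/-- `|2| ^ (k + 1) ≤ |k + 3|` -/
lemma two_pow_le (h2 : v (2 : K) < 1) (k : ℕ) : v (2 : K) ^ (k + 1) ≤ v ((k + 3 : ℕ) : K) := by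
  obtain ⟨e, u, he, hu, hv⟩ := v_nat_eq v h2 (n := k + 3) (by omega)
  rw [hv]
  apply pow_le_pow_of_le_one (apply_nonneg _ _) h2.le
  by_contra hcon
  push Not at hcon
  have h3 : k + 3 < 2 ^ (k + 2) := by
    clear he hv hcon
    induction k with
    | zero => norm_num
    | succ k ih => rw [pow_succ]; omega
  have h4 : 2 ^ (k + 2) ≤ 2 ^ e := Nat.pow_le_pow_right (by norm_num) (by omega)
  have h5 : 2 ^ e ≤ 2 ^ e * u := Nat.le_mul_of_pos_right _ hu.pos
  omega

/-- `|2| ^ (k + 1) ≤ |(k + 3) (k + 2)|` -/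
lemma two_pow_le' (h2 : v (2 : K) < 1) (k : ℕ) :
    v (2 : K) ^ (k + 1) ≤ v (((k + 3) * (k + 2) : ℕ) : K) := by
  rw [Nat.cast_mul, map_mul]
  rcases Nat.even_or_odd k with hk | hk
  · -- `k + 3` is odd
    have h3 : Odd (k + 3) := by
      obtain ⟨j, rfl⟩ := hk
      exact ⟨j + 1, by ring⟩
    rw [v_odd v h2 h3, one_mul]
    rcases Nat.eq_zero_or_pos k with rfl | hk0
    · norm_num
    · obtain ⟨j, rfl⟩ : ∃ j, k = j + 1 := ⟨k - 1, by omega⟩
      refine le_trans ?_ (two_pow_le v h2 j)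
      exact pow_le_pow_of_le_one (apply_nonneg _ _) h2.le (by omega)
  · have h3 : Odd (k + 2) := by
      obtain ⟨j, rfl⟩ := hk
      exact ⟨j + 1, by ring⟩
    rw [v_odd v h2 h3, mul_one]
    exact two_pow_le v h2 k

/-- the tail of the binomial series, two-adically -/
lemma binom_tail (h2 : v (2 : K) < 1) {t : K} (ht : v t ≤ v (2 : K)) (m : ℕ) :
    v ((1 + t) ^ m - (1 + m * t + (m.choose 2 : K) * t ^ 2)) ≤ v (m : K) * v t ^ 2 := by
  rcases lt_or_ge m 3 with hm | hm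
  · have h0 : (1 + t) ^ m - (1 + m * t + (m.choose 2 : K) * t ^ 2) = 0 := by
      interval_cases m
      · simp
      · simp
      · simp; ring
    rw [h0, map_zero]
    positivity
  obtain ⟨n, rfl⟩ : ∃ n, m = n + 3 := ⟨m - 3, by omega⟩
  have h1 : (1 + t) ^ (n + 3) - (1 + ((n + 3 : ℕ) : K) * t + ((n + 3).choose 2 : K) * t ^ 2) =
      ∑ i ∈ Finset.range (n + 1), t ^ (i + 3) * ((n + 3).choose (i + 3) : K) := by
    rw [add_comm 1 t, add_pow]
    have e : n + 3 + 1 = (n + 1) + 1 + 1 + 1 := by omega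
    rw [e, Finset.sum_range_succ', Finset.sum_range_succ', Finset.sum_range_succ']
    simp only [one_pow, mul_one, pow_zero, Nat.choose_zero_right, Nat.cast_one, zero_add, pow_one,
      Nat.choose_one_right]
    ring
  rw [h1]
  apply v_sum_le v _ _ (by positivity)
  intro i _
  rw [map_mul, map_pow]
  have h3 : v (((i + 3 : ℕ) : K)) * v (((n + 3).choose (i + 3) : ℕ) : K) ≤ v ((n + 3 : ℕ) : K) := by
    rw [← map_mul]
    have h4 : (i + 3) * (n + 3).choose (i + 3) = (n + 3) * (n + 2).choose (i + 2) := by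
      have := Nat.add_one_mul_choose_eq (n + 2) (i + 2)
      rw [mul_comm, ← this]
    have h5 : ((i + 3 : ℕ) : K) * (((n + 3).choose (i + 3) : ℕ) : K) =
        ((n + 3 : ℕ) : K) * (((n + 2).choose (i + 2) : ℕ) : K) := by exact_mod_cast h4
    rw [h5, map_mul]
    exact mul_le_of_le_one_right (apply_nonneg _ _) (natCast_le_one v _)
  have h4 : v t ^ (i + 1) ≤ v (((i + 3 : ℕ) : K)) :=
    (pow_le_pow_left₀ (apply_nonneg _ _) ht _).trans (two_pow_le v h2 i)
  calc v t ^ (i + 3) * v (((n + 3).choose (i + 3) : ℕ) : K)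
      = v t ^ 2 * (v t ^ (i + 1) * v (((n + 3).choose (i + 3) : ℕ) : K)) := by ring
    _ ≤ v t ^ 2 * (v (((i + 3 : ℕ) : K)) * v (((n + 3).choose (i + 3) : ℕ) : K)) := by gcongr
    _ ≤ v t ^ 2 * v ((n + 3 : ℕ) : K) := by gcongr
    _ = _ := mul_comm _ _

/-- the first two terms of the binomial series -/
lemma binom_two {t : K} (ht : v t ≤ 1) (m : ℕ) :
    v ((1 + t) ^ m - (1 + m * t)) ≤ v t ^ 2 := by
  rcases lt_or_ge m 2 with hm | hm
  · have h0 : (1 + t) ^ m - (1 + m * t) = 0 := by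
      interval_cases m <;> simp
    rw [h0, map_zero]
    positivity
  obtain ⟨n, rfl⟩ : ∃ n, m = n + 2 := ⟨m - 2, by omega⟩
  have h1 : (1 + t) ^ (n + 2) - (1 + ((n + 2 : ℕ) : K) * t) =
      ∑ i ∈ Finset.range (n + 1), t ^ (i + 2) * ((n + 2).choose (i + 2) : K) := by
    rw [add_comm 1 t, add_pow]
    have e : n + 2 + 1 = (n + 1) + 1 + 1 := by omega
    rw [e, Finset.sum_range_succ', Finset.sum_range_succ']
    simp only [one_pow, mul_one, pow_zero, Nat.choose_zero_right, Nat.cast_one, zero_add, pow_one,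
      Nat.choose_one_right]
    ring
  rw [h1]
  apply v_sum_le v _ _ (by positivity)
  intro i _
  rw [map_mul, map_pow]
  calc v t ^ (i + 2) * v (((n + 2).choose (i + 2) : ℕ) : K) ≤ v t ^ (i + 2) * 1 := by
        gcongr
        exact natCast_le_one v _
    _ = v t ^ 2 * v t ^ i := by ring
    _ ≤ v t ^ 2 * 1 := by
        gcongr
        exact pow_le_one₀ (apply_nonneg _ _) ht
    _ = _ := mul_one _

/-- `(w - s) ^ p` up to third order, two-adically -/
lemma binom_three (h2 : v (2 : K) < 1) {s w : K} (hs : v s ≤ v (2 : K)) (hw : v w ≤ 1) (n : ℕ) :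
    v ((w - s) ^ (n + 3) - (w ^ (n + 3) - ((n + 3 : ℕ) : K) * s * w ^ (n + 2) +
      ((n + 3).choose 2 : K) * s ^ 2 * w ^ (n + 1))) ≤ v ((n + 2 : ℕ) : K) * v s ^ 2 := by
  have h1 : (w - s) ^ (n + 3) - (w ^ (n + 3) - ((n + 3 : ℕ) : K) * s * w ^ (n + 2) +
      ((n + 3).choose 2 : K) * s ^ 2 * w ^ (n + 1)) =
      ∑ i ∈ Finset.range (n + 1), (-s) ^ (i + 3) * w ^ (n - i) * ((n + 3).choose (i + 3) : K) := by
    have e0 : w - s = -s + w := by ring
    rw [e0, add_pow]
    have e : n + 3 + 1 = (n + 1) + 1 + 1 + 1 := by omega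
    rw [e, Finset.sum_range_succ', Finset.sum_range_succ', Finset.sum_range_succ']
    have e1 : ∀ k ∈ Finset.range (n + 1), (-s) ^ (k + 1 + 1 + 1) * w ^ (n + 3 - (k + 1 + 1 + 1)) *
        (((n + 3).choose (k + 1 + 1 + 1) : ℕ) : K) =
        (-s) ^ (k + 3) * w ^ (n - k) * ((n + 3).choose (k + 3) : K) := by
      intro k _
      have : n + 3 - (k + 1 + 1 + 1) = n - k := by omega
      rw [this]
    rw [Finset.sum_congr rfl e1]
    have e2 : n + 3 - (0 + 1 + 1) = n + 1 := by omega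
    have e3 : n + 3 - (0 + 1) = n + 2 := by omega
    rw [e2, e3]
    simp only [mul_one, pow_zero, Nat.choose_zero_right, Nat.cast_one, zero_add, pow_one,
      Nat.choose_one_right, Nat.sub_zero, one_mul]
    ring
  rw [h1]
  apply v_sum_le v _ _ (by positivity)
  intro i hi
  rw [Finset.mem_range] at hi
  rw [map_mul, map_mul, map_pow, map_neg_eq_map]
  have h3 : v (((i + 3) * (i + 2) : ℕ) : K) * v (((n + 3).choose (i + 3) : ℕ) : K) ≤
      v ((n + 2 : ℕ) : K) := by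
    rw [← map_mul]
    have h4 : (n + 3).choose (i + 3) * (i + 3) = (n + 3) * (n + 2).choose (i + 2) :=
      (Nat.add_one_mul_choose_eq (n + 2) (i + 2)).symm
    have h4' : (n + 2).choose (i + 2) * (i + 2) = (n + 2) * (n + 1).choose (i + 1) :=
      (Nat.add_one_mul_choose_eq (n + 1) (i + 1)).symm
    have h5 : (i + 3) * (i + 2) * (n + 3).choose (i + 3) =
        (n + 2) * ((n + 3) * (n + 1).choose (i + 1)) := by
      calc (i + 3) * (i + 2) * (n + 3).choose (i + 3) =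
            (i + 2) * ((n + 3).choose (i + 3) * (i + 3)) := by ring
        _ = (n + 3) * ((n + 2).choose (i + 2) * (i + 2)) := by rw [h4]; ring
        _ = _ := by rw [h4']; ring
    have h6 : (((i + 3) * (i + 2) : ℕ) : K) * (((n + 3).choose (i + 3) : ℕ) : K) =
        ((n + 2 : ℕ) : K) * (((n + 3) * (n + 1).choose (i + 1) : ℕ) : K) := by
      rw [← Nat.cast_mul, h5, Nat.cast_mul]
    rw [h6, map_mul]
    exact mul_le_of_le_one_right (apply_nonneg _ _) (natCast_le_one v _)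
  have h4 : v s ^ (i + 1) ≤ v (((i + 3) * (i + 2) : ℕ) : K) :=
    (pow_le_pow_left₀ (apply_nonneg _ _) hs _).trans (two_pow_le' v h2 i)
  calc v s ^ (i + 3) * v (w ^ (n - i)) * v (((n + 3).choose (i + 3) : ℕ) : K)
      ≤ v s ^ (i + 3) * 1 * v (((n + 3).choose (i + 3) : ℕ) : K) := by
        gcongr
        exact v_pow_le_one v hw _
    _ = v s ^ 2 * (v s ^ (i + 1) * v (((n + 3).choose (i + 3) : ℕ) : K)) := by ring
    _ ≤ v s ^ 2 * (v (((i + 3) * (i + 2) : ℕ) : K) * v (((n + 3).choose (i + 3) : ℕ) : K)) := by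
        gcongr
    _ ≤ v s ^ 2 * v ((n + 2 : ℕ) : K) := by gcongr
    _ = _ := mul_comm _ _

end Basics

end Pool.Agent.H59.SH
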