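import Pool.Agent.H59.SH.TwoA

/-!
Power sums of three numbers with sum zero, two-adically.
-/

set_option autoImplicit false

namespace Pool.Agent.H59.SH

open NumberField IsDedekindDomain Pool.Agent.W7.FH

variable {K : Type} [Field K] [NumberField K]

/-- power sums -/
def PS (x y z : K) (n : ℕ) : K := x ^ n + y ^ n + z ^ n

/-- the quadratic form which vanishes at the cube roots of unity -/
def EE (x y : K) : K := x ^ 2 + x * y + y ^ 2

omit [NumberField K] in
lemma cube_x {x y z : K} (h : x + y + z = 0) : x ^ 3 = EE x y * x + x * y * z := by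
  have hz : z = -x - y := by linear_combination h
  rw [hz]; unfold EE; ring

omit [NumberField K] in
lemma cube_y {x y z : K} (h : x + y + z = 0) : y ^ 3 = EE x y * y + x * y * z := by
  have hz : z = -x - y := by linear_combination h
  rw [hz]; unfold EE; ring

omit [NumberField K] in
lemma cube_z {x y z : K} (h : x + y + z = 0) : z ^ 3 = EE x y * z + x * y * z := by
  have hz : z = -x - y := by linear_combination h
  rw [hz]; unfold EE; ring

omit [NumberField K] in
lemma PS_two {x y z : K} (h : x + y + z = 0) : PS x y z 2 = 2 * EE x y := by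
  have hz : z = -x - y := by linear_combination h
  rw [hz]; unfold EE PS; ring

omit [NumberField K] in
lemma PS_three {x y z : K} (h : x + y + z = 0) : PS x y z 3 = 3 * (x * y * z) := by
  have hz : z = -x - y := by linear_combination h
  rw [hz]; unfold PS; ring

variable (v : FinitePlace K)

section General

variable {a b c : K} {μ : ℝ}

/-- power sums whose index is prime to three are small if the first two elementary symmetric
functions are small -/
lemma PS_small (ha : v a ≤ 1) (hb : v b ≤ 1) (hc : v c ≤ 1) (h0 : 0 ≤ μ) (h1 : μ ≤ 1)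
    (he1 : v (a + b + c) ≤ μ) (he2 : v (a * b + b * c + c * a) ≤ μ) :
    ∀ n : ℕ, ¬ 3 ∣ n → v (PS a b c n) ≤ μ := by
  have hle1 : ∀ n, v (PS a b c n) ≤ 1 := fun n => by
    unfold PS
    exact v_add_le v (v_add_le v (v_pow_le_one v ha _) (v_pow_le_one v hb _)) (v_pow_le_one v hc _)
  have hrec : ∀ n, PS a b c (n + 3) = (a + b + c) * PS a b c (n + 2) -
      (a * b + b * c + c * a) * PS a b c (n + 1) + a * b * c * PS a b c n := by
    intro n
    unfold PS
    ring
  intro n
  induction n using Nat.strong_induction_on with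
  | _ n ih =>
    intro hn
    rcases Nat.lt_or_ge n 3 with h3 | h3
    · interval_cases n
      · exact absurd (dvd_zero 3) hn
      · unfold PS
        simpa using he1
      · have e : PS a b c 2 = (a + b + c) * (a + b + c) - 2 * (a * b + b * c + c * a) := by
          unfold PS; ring
        rw [e]
        refine v_sub_le' v ?_ ?_
        · rw [map_mul]
          calc v (a + b + c) * v (a + b + c) ≤ μ * 1 :=
                mul_le_mul he1 (he1.trans h1) (apply_nonneg _ _) h0
            _ = μ := mul_one _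
        · rw [map_mul]
          have h2 : v (2 : K) ≤ 1 := by exact_mod_cast natCast_le_one v 2
          calc v 2 * v (a * b + b * c + c * a) ≤ 1 * μ :=
                mul_le_mul h2 he2 (apply_nonneg _ _) zero_le_one
            _ = μ := one_mul _
    · obtain ⟨k, rfl⟩ : ∃ k, n = k + 3 := ⟨n - 3, by omega⟩
      rw [hrec]
      refine v_add_le v (v_sub_le' v ?_ ?_) ?_
      · rw [map_mul]
        calc v (a + b + c) * v (PS a b c (k + 2)) ≤ μ * 1 :=
              mul_le_mul he1 (hle1 _) (apply_nonneg _ _) h0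
          _ = μ := mul_one _
      · rw [map_mul]
        calc v (a * b + b * c + c * a) * v (PS a b c (k + 1)) ≤ μ * 1 :=
              mul_le_mul he2 (hle1 _) (apply_nonneg _ _) h0
          _ = μ := mul_one _
      · rw [map_mul]
        have h4 := ih k (by omega) (fun h => hn (by omega))
        calc v (a * b * c) * v (PS a b c k) ≤ 1 * μ :=
              mul_le_mul (v_mul_le_one v (v_mul_le_one v ha hb) hc) h4 (apply_nonneg _ _)
                zero_le_one
          _ = μ := one_mul _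

end General

variable {x y z : K}

lemma PS_double (hs : x + y + z = 0) (hx : v x ≤ 1) (hy : v y ≤ 1) (hz : v z ≤ 1)
    (h2 : v (2 : K) < 1) (hE : v (EE x y) ≤ v (2 : K)) (k : ℕ) :
    v (PS x y z (2 ^ k)) ≤ v (2 : K) ^ k * v (EE x y) ∧
    v (PS (x * y) (y * z) (z * x) (2 ^ k)) ≤ v (2 : K) ^ k * v (EE x y) := by
  induction k with
  | zero =>
    constructor
    · have : PS x y z (2 ^ 0) = 0 := by unfold PS; simpa using hs
      rw [this, map_zero]
      positivity
    · have hz' : z = -x - y := by linear_combination hs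
      have : PS (x * y) (y * z) (z * x) (2 ^ 0) = -EE x y := by
        rw [hz']; unfold PS EE; ring
      rw [this, map_neg_eq_map, pow_zero, one_mul]
  | succ k ih =>
    obtain ⟨h3, h4⟩ := ih
    have hE0 : 0 ≤ v (EE x y) := apply_nonneg _ _
    have h20 : 0 ≤ v (2 : K) := apply_nonneg _ _
    have hk1 : v (2 : K) ^ k ≤ 1 := pow_le_one₀ h20 h2.le
    have hsq : ∀ r : ℝ, 0 ≤ r → r ≤ v (2 : K) ^ k * v (EE x y) →
        r * r ≤ v (2 : K) ^ (k + 1) * v (EE x y) := by
      intro r hr0 hr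
      calc r * r ≤ (v (2 : K) ^ k * v (EE x y)) * (v (2 : K) ^ k * v (EE x y)) :=
            mul_le_mul hr hr hr0 (by positivity)
        _ ≤ (1 * v (2 : K)) * (v (2 : K) ^ k * v (EE x y)) := by gcongr
        _ = _ := by rw [pow_succ]; ring
    constructor
    · have e : PS x y z (2 ^ (k + 1)) = PS x y z (2 ^ k) * PS x y z (2 ^ k) -
          2 * PS (x * y) (y * z) (z * x) (2 ^ k) := by
        unfold PS
        rw [pow_succ 2 k, pow_mul, pow_mul, pow_mul, mul_pow, mul_pow, mul_pow]
        ring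
      rw [e]
      refine v_sub_le' v ?_ ?_
      · rw [map_mul]
        exact hsq _ (apply_nonneg _ _) h3
      · rw [map_mul]
        calc v (2 : K) * v (PS (x * y) (y * z) (z * x) (2 ^ k)) ≤
              v (2 : K) * (v (2 : K) ^ k * v (EE x y)) := by gcongr
          _ = _ := by rw [pow_succ]; ring
    · have e : PS (x * y) (y * z) (z * x) (2 ^ (k + 1)) =
          PS (x * y) (y * z) (z * x) (2 ^ k) * PS (x * y) (y * z) (z * x) (2 ^ k) -
          2 * (x * y * z) ^ (2 ^ k) * PS x y z (2 ^ k) := by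
        unfold PS
        rw [pow_succ 2 k, pow_mul, pow_mul, pow_mul]
        simp only [mul_pow]
        ring
      rw [e]
      refine v_sub_le' v ?_ ?_
      · rw [map_mul]
        exact hsq _ (apply_nonneg _ _) h4
      · rw [map_mul, map_mul]
        have h5 : v ((x * y * z) ^ (2 ^ k)) ≤ 1 :=
          v_pow_le_one v (v_mul_le_one v (v_mul_le_one v hx hy) hz) _
        calc v (2 : K) * v ((x * y * z) ^ (2 ^ k)) * v (PS x y z (2 ^ k)) ≤
              v (2 : K) * 1 * (v (2 : K) ^ k * v (EE x y)) := by gcongr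
          _ = _ := by rw [pow_succ]; ring

/-- `|P_n| ≤ |n| |E|` if `n` is prime to three -/
lemma PS_le (hs : x + y + z = 0) (hx : v x ≤ 1) (hy : v y ≤ 1) (hz : v z ≤ 1)
    (h2 : v (2 : K) < 1) (hE : v (EE x y) ≤ v (2 : K)) {n : ℕ} (hn : ¬ 3 ∣ n) :
    v (PS x y z n) ≤ v (n : K) * v (EE x y) := by
  have hn0 : n ≠ 0 := by rintro rfl; exact hn (dvd_zero 3)
  obtain ⟨k, u, e, hu, hv⟩ := v_nat_eq v h2 hn0
  obtain ⟨h3, h4⟩ := PS_double v hs hx hy hz h2 hE k
  have hE0 : 0 ≤ v (EE x y) := apply_nonneg _ _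
  have h20 : 0 ≤ v (2 : K) := apply_nonneg _ _
  have hk1 : v (2 : K) ^ k ≤ 1 := pow_le_one₀ h20 h2.le
  have hE1 : v (EE x y) ≤ 1 := hE.trans h2.le
  have hu3 : ¬ 3 ∣ u := fun h => hn (e ▸ h.mul_left _)
  have h5 := PS_small v (a := x ^ (2 ^ k)) (b := y ^ (2 ^ k)) (c := z ^ (2 ^ k))
    (μ := v (2 : K) ^ k * v (EE x y)) (v_pow_le_one v hx _) (v_pow_le_one v hy _)
    (v_pow_le_one v hz _) (by positivity) (mul_le_one₀ hk1 hE0 hE1) h3 (by
      have e2 : x ^ (2 ^ k) * y ^ (2 ^ k) + y ^ (2 ^ k) * z ^ (2 ^ k) + z ^ (2 ^ k) * x ^ (2 ^ k) =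
          PS (x * y) (y * z) (z * x) (2 ^ k) := by
        unfold PS
        simp only [mul_pow]
      rw [e2]
      exact h4) u hu3
  have e3 : PS (x ^ (2 ^ k)) (y ^ (2 ^ k)) (z ^ (2 ^ k)) u = PS x y z n := by
    unfold PS
    rw [e]
    simp only [pow_mul]
  rw [hv, ← e3]
  exact h5

/-- `P_(3 m)` is a unit -/
lemma PS_unit (hs : x + y + z = 0) (hx : v x = 1) (hy : v y = 1) (hz : v z = 1)
    (h2 : v (2 : K) < 1) (hE : v (EE x y) ≤ v (2 : K)) (m : ℕ) : v (PS x y z (3 * m)) = 1 := by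
  have hE1 : v (EE x y) < 1 := hE.trans_lt h2
  have hη : v ((x * y * z) ^ m) = 1 := by
    rw [map_pow, map_mul, map_mul, hx, hy, hz]
    simp
  have hη1 : v (x * y * z) ≤ 1 := by rw [map_mul, map_mul, hx, hy, hz]; simp
  have key : ∀ w : K, v w = 1 → w ^ 3 = EE x y * w + x * y * z →
      v (w ^ (3 * m) - (x * y * z) ^ m) < 1 := by
    intro w hw h3
    rw [pow_mul]
    obtain ⟨c, hc⟩ := (Commute.all (w ^ 3) (x * y * z)).sub_dvd_pow_sub_pow m
    -- the cofactor is integral
    have hgeom := (Commute.all (w ^ 3) (x * y * z)).mul_geom_sum₂ m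
    rw [← hgeom, map_mul]
    have h4 : v (w ^ 3 - x * y * z) < 1 := by
      rw [h3, add_sub_cancel_right, map_mul, hw, mul_one]
      exact hE1
    have h5 : v (∑ i ∈ Finset.range m, (w ^ 3) ^ i * (x * y * z) ^ (m - 1 - i)) ≤ 1 := by
      apply v_sum_le v _ _ zero_le_one
      intro i _
      exact v_mul_le_one v (v_pow_le_one v (v_pow_le_one v hw.le _) _) (v_pow_le_one v hη1 _)
    calc v (w ^ 3 - x * y * z) * v (∑ i ∈ Finset.range m, (w ^ 3) ^ i *
          (x * y * z) ^ (m - 1 - i)) ≤ v (w ^ 3 - x * y * z) * 1 := by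
          gcongr
      _ < 1 := by rw [mul_one]; exact h4
  have e : PS x y z (3 * m) = 3 * (x * y * z) ^ m + ((x ^ (3 * m) - (x * y * z) ^ m) +
      (y ^ (3 * m) - (x * y * z) ^ m) + (z ^ (3 * m) - (x * y * z) ^ m)) := by
    unfold PS; ring
  have h3 : v (3 : K) = 1 := by
    have := v_odd v h2 (n := 3) (by decide)
    simpa using this
  have h4 : v (3 * (x * y * z) ^ m) = 1 := by rw [map_mul, h3, hη, one_mul]
  rw [e, add_eq_of_lt v, h4]
  rw [h4]
  exact v_add_lt v (v_add_lt v (key x hx (cube_x hs)) (key y hy (cube_y hs))) (key z hz (cube_z hs))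

/-- `2 η P_(3 m + 1)` up to higher order terms -/
lemma PS_one (hs : x + y + z = 0) (hx : v x = 1) (hy : v y = 1) (hz : v z = 1)
    (h2 : v (2 : K) < 1) (hE : v (EE x y) ≤ v (2 : K)) (m : ℕ) :
    v (2 * (x * y * z) * PS x y z (3 * m + 1) -
      (m : K) * (3 * m + 1) * EE x y ^ 2 * (x * y * z) ^ m) ≤ v (2 : K) * v (m : K) * v (EE x y) ^ 2 := by
  obtain ⟨η, hη⟩ : ∃ η, η = x * y * z := ⟨_, rfl⟩
  have hηv : v η = 1 := by rw [hη, map_mul, map_mul, hx, hy, hz]; simp
  have hη0 : η ≠ 0 := by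
    intro h
    rw [h, map_zero] at hηv
    exact zero_ne_one hηv
  obtain ⟨E, hEd⟩ : ∃ E, E = EE x y := ⟨_, rfl⟩
  have c1 := cube_x hs
  have c2 := cube_y hs
  have c3 := cube_z hs
  have p2 := PS_two hs
  have p3 := PS_three hs
  rw [← hη] at c1 c2 c3 p3
  rw [← hEd] at c1 c2 c3 p2 hE
  rw [← hη, ← hEd]
  have key : ∀ w : K, w ^ 3 = E * w + η → w ^ (3 * m + 1) = η ^ m * (w * (1 + m * (E * w / η) +
      (m.choose 2 : K) * (E * w / η) ^ 2) + w * ((1 + E * w / η) ^ m - (1 + m * (E * w / η) +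
      (m.choose 2 : K) * (E * w / η) ^ 2))) := by
    intro w hw
    have h1 : w ^ 3 = η * (1 + E * w / η) := by
      rw [hw]; field_simp; ring
    rw [pow_succ, pow_mul, h1, mul_pow]
    ring
  obtain ⟨r, hr⟩ : ∃ r : K → K, r = fun w => (1 + E * w / η) ^ m - (1 + m * (E * w / η) +
      (m.choose 2 : K) * (E * w / η) ^ 2) := ⟨_, rfl⟩
  have hrb : ∀ w : K, v w = 1 → v (w * r w) ≤ v (m : K) * v E ^ 2 := by
    intro w hw
    have ht : v (E * w / η) = v E := by rw [map_div₀, map_mul, hw, hηv]; simp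
    have h3 := binom_tail v h2 (t := E * w / η) (by rw [ht]; exact hE) m
    rw [ht] at h3
    rw [map_mul, hw, one_mul, hr]
    exact h3
  have hchoose : (2 : K) * (m.choose 2 : K) = m * (m - 1) := by
    have := Nat.cast_choose_two K m
    rw [this]
    ring
  have hfin : 2 * η * PS x y z (3 * m + 1) - (m : K) * (3 * m + 1) * E ^ 2 * η ^ m =
      2 * (η ^ m * (η * (x * r x + y * r y + z * r z))) := by
    have e0 : PS x y z (3 * m + 1) = η ^ m * ((x + y + z) + m * (E / η) * PS x y z 2 +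
        (m.choose 2 : K) * (E / η) ^ 2 * PS x y z 3 + (x * r x + y * r y + z * r z)) := by
      unfold PS
      rw [key x c1, key y c2, key z c3, hr]
      ring
    rw [e0, hs, p2, p3]
    have e1 : 2 * η * (η ^ m * (0 + m * (E / η) * (2 * E) + (m.choose 2 : K) * (E / η) ^ 2 *
        (3 * η) + (x * r x + y * r y + z * r z))) =
        η ^ m * (4 * m * E ^ 2 + 3 * (2 * (m.choose 2 : K)) * E ^ 2) +
        2 * (η ^ m * (η * (x * r x + y * r y + z * r z))) := by
      field_simp
      ring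
    rw [e1, hchoose]
    ring
  rw [hfin, map_mul, map_mul, map_mul, hηv, map_pow, hηv, one_pow, one_mul, one_mul, mul_assoc]
  gcongr
  exact v_add_le v (v_add_le v (hrb x hx) (hrb y hy)) (hrb z hz)

/-- `P_(3 m + 2)` up to higher order terms -/
lemma PS_twoTerm (hs : x + y + z = 0) (hx : v x = 1) (hy : v y = 1) (hz : v z = 1)
    (h2 : v (2 : K) < 1) (hE : v (EE x y) ≤ v (2 : K)) (m : ℕ) :
    v (PS x y z (3 * m + 2) - (3 * m + 2) * EE x y * (x * y * z) ^ m) ≤ v (EE x y) ^ 2 := by
  obtain ⟨η, hη⟩ : ∃ η, η = x * y * z := ⟨_, rfl⟩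
  have hηv : v η = 1 := by rw [hη, map_mul, map_mul, hx, hy, hz]; simp
  have hη0 : η ≠ 0 := by
    intro h
    rw [h, map_zero] at hηv
    exact zero_ne_one hηv
  obtain ⟨E, hEd⟩ : ∃ E, E = EE x y := ⟨_, rfl⟩
  have c1 := cube_x hs
  have c2 := cube_y hs
  have c3 := cube_z hs
  have p2 := PS_two hs
  have p3 := PS_three hs
  rw [← hη] at c1 c2 c3 p3
  rw [← hEd] at c1 c2 c3 p2 hE
  rw [← hη, ← hEd]
  obtain ⟨r, hr⟩ : ∃ r : K → K, r = fun w => (1 + E * w / η) ^ m - (1 + m * (E * w / η)) :=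
    ⟨_, rfl⟩
  have key : ∀ w : K, w ^ 3 = E * w + η → w ^ (3 * m + 2) = η ^ m * (w ^ 2 *
      (1 + m * (E * w / η)) + w ^ 2 * r w) := by
    intro w hw
    have h1 : w ^ 3 = η * (1 + E * w / η) := by
      rw [hw]; field_simp; ring
    rw [pow_add, pow_mul, h1, mul_pow, hr]
    ring
  have hrb : ∀ w : K, v w = 1 → v (w ^ 2 * r w) ≤ v E ^ 2 := by
    intro w hw
    have ht : v (E * w / η) = v E := by rw [map_div₀, map_mul, hw, hηv]; simp
    have h3 := binom_two v (t := E * w / η) (by rw [ht]; exact hE.trans h2.le) m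
    rw [ht] at h3
    rw [map_mul, map_pow, hw, one_pow, one_mul, hr]
    exact h3
  have hfin : PS x y z (3 * m + 2) - (3 * m + 2) * E * η ^ m =
      η ^ m * (x ^ 2 * r x + y ^ 2 * r y + z ^ 2 * r z) := by
    have e0 : PS x y z (3 * m + 2) = η ^ m * (PS x y z 2 + m * (E / η) * PS x y z 3 +
        (x ^ 2 * r x + y ^ 2 * r y + z ^ 2 * r z)) := by
      have e : PS x y z (3 * m + 2) = x ^ (3 * m + 2) + y ^ (3 * m + 2) + z ^ (3 * m + 2) := rfl
      rw [e, key x c1, key y c2, key z c3]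
      unfold PS
      ring
    rw [e0, p2, p3]
    field_simp
    ring
  rw [hfin, map_mul, map_pow, hηv, one_pow, one_mul]
  exact v_add_le v (v_add_le v (hrb x hx) (hrb y hy)) (hrb z hz)

end Pool.Agent.H59.SH
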