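import Pool.Agent.H59.SH.TwoB

/-!
The two-adic contradiction.
-/

set_option autoImplicit false

namespace Pool.Agent.H59.SH

open NumberField IsDedekindDomain Pool.Agent.W7.FH

variable {K : Type} [Field K] [NumberField K]

section

variable (v : FinitePlace K)

/-- the binomial expansion up to second order -/
lemma expand_two {s w : K} (hs : v s ≤ 1) (hw : v w ≤ 1) (n : ℕ) :
    ∃ R : K, v R ≤ 1 ∧ (w + s) ^ (n + 1) = w ^ (n + 1) + (n + 1) * s * w ^ n + s ^ 2 * R := by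
  induction n with
  | zero => exact ⟨0, by simp, by simp⟩
  | succ n ih =>
    obtain ⟨R, hR, e⟩ := ih
    refine ⟨w * R + (n + 1) * w ^ n + s * R, ?_, ?_⟩
    · refine v_add_le v (v_add_le v (v_mul_le_one v hw hR) (v_mul_le_one v ?_ (v_pow_le_one v hw _)))
        (v_mul_le_one v hs hR)
      exact_mod_cast natCast_le_one v (n + 1)
    · rw [pow_succ (w + s), e]
      push_cast
      ring

/-- `|a ^ n - b ^ n| ≤ |a - b| M ^ (n - 1)` -/
lemma v_pow_sub_pow {a b : K} {M : ℝ} (ha : v a ≤ M) (hb : v b ≤ M) (n : ℕ) :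
    v (a ^ (n + 1) - b ^ (n + 1)) ≤ v (a - b) * M ^ n := by
  have hM : 0 ≤ M := (apply_nonneg v a).trans ha
  rw [← (Commute.all a b).mul_geom_sum₂ (n + 1), map_mul]
  gcongr
  apply v_sum_le v _ _ (by positivity)
  intro i hi
  rw [Finset.mem_range] at hi
  rw [map_mul, map_pow, map_pow]
  calc v a ^ i * v b ^ (n + 1 - 1 - i) ≤ M ^ i * M ^ (n + 1 - 1 - i) := by gcongr
    _ = M ^ n := by rw [← pow_add]; congr 1; omega

end

variable (v : FinitePlace K) {x y z s : K}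

theorem case_one (hs : x + y + z = 0) (hx : v x = 1) (hy : v y = 1) (hz : v z = 1)
    (h2 : v (2 : K) < 1) (hE : v (EE x y) ≤ v (2 : K)) {m : ℕ} (hm0 : m ≠ 0) (hm : Even m)
    (h2s : 2 * s = PS x y z (3 * m + 1))
    (hF : (s - x ^ (3 * m + 1)) ^ (3 * m + 1) + (s - y ^ (3 * m + 1)) ^ (3 * m + 1) +
      (s - z ^ (3 * m + 1)) ^ (3 * m + 1) = 0) : EE x y = 0 := by
  by_contra hE0
  have hEp : 0 < v (EE x y) := FinitePlace.pos_iff.mpr hE0
  have h2p : 0 < v (2 : K) := v_two_pos v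
  have hmp : 0 < v (m : K) := v_nat_pos v hm0
  have hmle : v (m : K) ≤ v (2 : K) := v_even_le v h2 hm
  have hpodd : Odd (3 * m + 1) := by
    obtain ⟨j, rfl⟩ := hm
    exact ⟨3 * j, by ring⟩
  have hpv : v ((3 * m + 1 : ℕ) : K) = 1 := v_odd v h2 hpodd
  have hpv' : v ((3 : K) * m + 1) = 1 := by
    have : ((3 * m + 1 : ℕ) : K) = 3 * m + 1 := by push_cast; ring
    rw [← this]; exact hpv
  obtain ⟨η, hη⟩ : ∃ η, η = x * y * z := ⟨_, rfl⟩
  have hηv : v η = 1 := by rw [hη, map_mul, map_mul, hx, hy, hz]; simp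
  obtain ⟨δ, hδ⟩ : ∃ δ, δ = v (EE x y) := ⟨_, rfl⟩
  have hδ1 : δ < 1 := by rw [hδ]; exact hE.trans_lt h2
  -- the size of `s`
  have h3 := PS_one v hs hx hy hz h2 hE m
  rw [← h2s, ← hη, ← hδ] at h3
  have h4 : v ((m : K) * (3 * m + 1) * EE x y ^ 2 * η ^ m) = v (m : K) * δ ^ 2 := by
    rw [map_mul, map_mul, map_mul, map_pow, map_pow, hpv', hηv, ← hδ]
    ring
  rw [← hδ] at hEp hE
  have h5 : v (2 * η * (2 * s)) = v (m : K) * δ ^ 2 := by
    have e : 2 * η * (2 * s) = (m : K) * (3 * m + 1) * EE x y ^ 2 * η ^ m +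
      (2 * η * (2 * s) - (m : K) * (3 * m + 1) * EE x y ^ 2 * η ^ m) := by ring
    rw [e, add_eq_of_lt v, h4]
    rw [h4]
    refine h3.trans_lt ?_
    rw [mul_assoc]
    exact mul_lt_of_lt_one_left (by positivity) h2
  have h6 : v (2 : K) ^ 2 * v s = v (m : K) * δ ^ 2 := by
    rw [← h5, map_mul, map_mul, map_mul, hηv]
    ring
  have hsp : 0 < v s := by
    by_contra hcon
    have : v s = 0 := le_antisymm (not_lt.mp hcon) (apply_nonneg _ _)
    rw [this, mul_zero] at h6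
    have : 0 < v (m : K) * δ ^ 2 := by positivity
    linarith
  have hs2 : v s ≤ v (2 : K) := by
    have h7 : v (2 : K) ^ 2 * v s ≤ v (2 : K) ^ 2 * v (2 : K) := by
      rw [h6]
      calc v (m : K) * δ ^ 2 ≤ v (2 : K) * v (2 : K) ^ 2 := by gcongr
        _ = _ := by ring
    exact le_of_mul_le_mul_left h7 (by positivity)
  have hs1 : v s < 1 := hs2.trans_lt h2
  -- the expansion
  have key : ∀ w : K, v w = 1 → ∃ R : K, v R ≤ 1 ∧ (s - w ^ (3 * m + 1)) ^ (3 * m + 1) =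
      -w ^ ((3 * m + 1) * (3 * m + 1)) + ((3 * m + 1 : ℕ) : K) * s * w ^ ((3 * m + 1) * (3 * m)) +
      s ^ 2 * R := by
    intro w hw
    obtain ⟨R, hR, e⟩ := expand_two v (s := s) (w := -w ^ (3 * m + 1)) hs1.le
      (by rw [map_neg_eq_map]; exact v_pow_le_one v hw.le _) (3 * m)
    refine ⟨R, hR, ?_⟩
    have e1 : s - w ^ (3 * m + 1) = -w ^ (3 * m + 1) + s := by ring
    have heven : Even (3 * m) := hm.mul_left 3
    rw [e1, e, hpodd.neg_pow, heven.neg_pow, ← pow_mul, ← pow_mul]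
    push_cast
    ring
  obtain ⟨R1, hR1, e1⟩ := key x hx
  obtain ⟨R2, hR2, e2⟩ := key y hy
  obtain ⟨R3, hR3, e3⟩ := key z hz
  have hsum : ((3 * m + 1 : ℕ) : K) * s * PS x y z ((3 * m + 1) * (3 * m)) =
      PS x y z ((3 * m + 1) * (3 * m + 1)) - s ^ 2 * (R1 + R2 + R3) := by
    rw [e1, e2, e3] at hF
    unfold PS
    linear_combination hF
  have hunit : v (PS x y z ((3 * m + 1) * (3 * m))) = 1 := by
    have := PS_unit v hs hx hy hz h2 (by rw [← hδ]; exact hE) ((3 * m + 1) * m)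
    have e : 3 * ((3 * m + 1) * m) = (3 * m + 1) * (3 * m) := by ring
    rwa [e] at this
  have hPp : v (PS x y z ((3 * m + 1) * (3 * m + 1))) ≤ v (2 : K) ^ 2 * v s := by
    have h7 := PS_one v hs hx hy hz h2 (by rw [← hδ]; exact hE) (m * (3 * m + 2))
    have e : 3 * (m * (3 * m + 2)) + 1 = (3 * m + 1) * (3 * m + 1) := by ring
    rw [e, ← hη, ← hδ] at h7
    have hm' : v ((m * (3 * m + 2) : ℕ) : K) ≤ v (m : K) * v (2 : K) := by
      push_cast
      rw [map_mul]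
      have : v ((3 * m + 2 : ℕ) : K) ≤ v (2 : K) := by
        refine v_even_le v h2 ?_
        exact (hm.mul_left 3).add even_two
      push_cast at this
      gcongr
    have h8 : v (2 * η * PS x y z ((3 * m + 1) * (3 * m + 1))) ≤
        v ((m * (3 * m + 2) : ℕ) : K) * δ ^ 2 := by
      have e4 : 2 * η * PS x y z ((3 * m + 1) * (3 * m + 1)) =
          (2 * η * PS x y z ((3 * m + 1) * (3 * m + 1)) -
          ((m * (3 * m + 2) : ℕ) : K) * (3 * ((m * (3 * m + 2) : ℕ) : K) + 1) * EE x y ^ 2 *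
            η ^ (m * (3 * m + 2))) +
          ((m * (3 * m + 2) : ℕ) : K) * (3 * ((m * (3 * m + 2) : ℕ) : K) + 1) * EE x y ^ 2 *
            η ^ (m * (3 * m + 2)) := by ring
      rw [e4]
      refine v_add_le v ?_ ?_
      · refine h7.trans ?_
        rw [mul_assoc]
        exact mul_le_of_le_one_left (by positivity) h2.le
      · rw [map_mul, map_mul, map_mul, map_pow, map_pow, hηv, one_pow, mul_one, ← hδ]
        have : v (3 * ((m * (3 * m + 2) : ℕ) : K) + 1) ≤ 1 := by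
          exact_mod_cast natCast_le_one v (3 * (m * (3 * m + 2)) + 1)
        calc v ((m * (3 * m + 2) : ℕ) : K) * v (3 * ((m * (3 * m + 2) : ℕ) : K) + 1) * δ ^ 2 ≤
              v ((m * (3 * m + 2) : ℕ) : K) * 1 * δ ^ 2 := by gcongr
          _ = _ := by ring
    rw [map_mul, map_mul, hηv, mul_one] at h8
    have h9 : v (2 : K) * v (PS x y z ((3 * m + 1) * (3 * m + 1))) ≤
        v (2 : K) * (v (m : K) * δ ^ 2) := by
      refine h8.trans ?_
      calc v ((m * (3 * m + 2) : ℕ) : K) * δ ^ 2 ≤ (v (m : K) * v (2 : K)) * δ ^ 2 := by gcongr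
        _ = _ := by ring
    rw [h6]
    exact le_of_mul_le_mul_left h9 h2p
  -- the contradiction
  have hfinal : v s ≤ max (v (2 : K) ^ 2 * v s) (v s ^ 2) := by
    have e4 : v (((3 * m + 1 : ℕ) : K) * s * PS x y z ((3 * m + 1) * (3 * m))) = v s := by
      rw [map_mul, map_mul, hpv, hunit]
      ring
    have e5 : v s = v (PS x y z ((3 * m + 1) * (3 * m + 1)) - s ^ 2 * (R1 + R2 + R3)) := by
      rw [← hsum]
      exact e4.symm
    refine e5.le.trans ((v_sub_le v _ _).trans (max_le_max hPp ?_))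
    rw [map_mul, map_pow]
    exact mul_le_of_le_one_right (by positivity) (v_add_le v (v_add_le v hR1 hR2) hR3)
  rcases le_max_iff.1 hfinal with h | h
  · have : v (2 : K) ^ 2 < 1 := pow_lt_one₀ (apply_nonneg _ _) h2 two_ne_zero
    nlinarith
  · nlinarith

theorem case_two (hs : x + y + z = 0) (hx : v x = 1) (hy : v y = 1) (hz : v z = 1)
    (h2 : v (2 : K) < 1) (hE : v (EE x y) ≤ v (2 : K)) {m : ℕ} (hm : Odd m)
    (h2s : 2 * s = PS x y z (3 * m + 2)) (hs2 : v s ≤ v (2 : K))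
    (hF : (s - x ^ (3 * m + 2)) ^ (3 * m + 2) + (s - y ^ (3 * m + 2)) ^ (3 * m + 2) +
      (s - z ^ (3 * m + 2)) ^ (3 * m + 2) = 0) : EE x y = 0 := by
  by_contra hE0
  have hEp : 0 < v (EE x y) := FinitePlace.pos_iff.mpr hE0
  have h2p : 0 < v (2 : K) := v_two_pos v
  have hpodd : Odd (3 * m + 2) := by
    obtain ⟨j, rfl⟩ := hm
    exact ⟨3 * j + 2, by ring⟩
  have hpv : v ((3 * m + 2 : ℕ) : K) = 1 := v_odd v h2 hpodd
  have hpv' : v ((3 : K) * m + 2) = 1 := by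
    have : ((3 * m + 2 : ℕ) : K) = 3 * m + 2 := by push_cast; ring
    rw [← this]; exact hpv
  obtain ⟨η, hη⟩ : ∃ η, η = x * y * z := ⟨_, rfl⟩
  have hηv : v η = 1 := by rw [hη, map_mul, map_mul, hx, hy, hz]; simp
  obtain ⟨δ, hδ⟩ : ∃ δ, δ = v (EE x y) := ⟨_, rfl⟩
  have hδ1 : δ < 1 := by rw [hδ]; exact hE.trans_lt h2
  have hδ2 : δ ≤ v (2 : K) := by rw [hδ]; exact hE
  rw [← hδ] at hEp
  -- the size of `s`
  have h3 := PS_twoTerm v hs hx hy hz h2 hE m
  rw [← h2s, ← hη, ← hδ] at h3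
  have h4 : v ((3 * m + 2) * EE x y * η ^ m) = δ := by
    rw [map_mul, map_mul, map_pow, hpv', hηv, ← hδ]
    ring
  have h5 : v (2 : K) * v s = δ := by
    rw [← map_mul]
    have e : 2 * s = (3 * m + 2) * EE x y * η ^ m + (2 * s - (3 * m + 2) * EE x y * η ^ m) := by
      ring
    rw [e, add_eq_of_lt v, h4]
    rw [h4]
    refine h3.trans_lt ?_
    nlinarith
  have hsp : 0 < v s := by
    by_contra hcon
    have : v s = 0 := le_antisymm (not_lt.mp hcon) (apply_nonneg _ _)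
    rw [this, mul_zero] at h5
    linarith
  obtain ⟨n, hn⟩ : ∃ n, 3 * m + 2 = n + 3 := ⟨3 * m - 1, by obtain ⟨j, rfl⟩ := hm; omega⟩
  have hpm : v ((n + 2 : ℕ) : K) = v ((3 * m + 1 : ℕ) : K) := by
    congr 2
    omega
  have hqp : 0 < v ((n + 2 : ℕ) : K) := v_nat_pos v (by omega)
  obtain ⟨g, hg⟩ : ∃ g, g = v ((n + 2 : ℕ) : K) := ⟨_, rfl⟩
  rw [← hg] at hpm hqp
  have key : ∀ w : K, v w = 1 → v (-(s - w ^ (3 * m + 2)) ^ (3 * m + 2) -
      (w ^ ((3 * m + 2) * (3 * m + 2)) - ((3 * m + 2 : ℕ) : K) * s * w ^ ((3 * m + 2) * (3 * m + 1)) +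
      ((3 * m + 2).choose 2 : K) * s ^ 2 * w ^ ((3 * m + 2) * (3 * m)))) ≤ g * v s ^ 2 := by
    intro w hw
    have h6 := binom_three v h2 (s := s) (w := w ^ (3 * m + 2)) hs2 (v_pow_le_one v hw.le _) n
    rw [← hg] at h6
    have e1 : (w ^ (3 * m + 2) - s) ^ (n + 3) = -(s - w ^ (3 * m + 2)) ^ (3 * m + 2) := by
      rw [← hn, ← hpodd.neg_pow]
      congr 1
      ring
    have e2 : n + 2 = 3 * m + 1 := by omega
    have e3 : n + 1 = 3 * m := by omega
    rw [e1, e2, e3, ← hn, ← pow_mul, ← pow_mul, ← pow_mul] at h6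
    exact h6
  have hsum : v (PS x y z ((3 * m + 2) * (3 * m + 2)) -
      ((3 * m + 2 : ℕ) : K) * s * PS x y z ((3 * m + 2) * (3 * m + 1)) +
      ((3 * m + 2).choose 2 : K) * s ^ 2 * PS x y z ((3 * m + 2) * (3 * m))) ≤ g * v s ^ 2 := by
    have h6 := v_add_le v (v_add_le v (key x hx) (key y hy)) (key z hz)
    rw [← map_neg_eq_map] at h6
    refine le_trans (le_of_eq ?_) h6
    congr 1
    unfold PS
    linear_combination -hF
  have hunit : v (PS x y z ((3 * m + 2) * (3 * m))) = 1 := by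
    have := PS_unit v hs hx hy hz h2 hE ((3 * m + 2) * m)
    have e : 3 * ((3 * m + 2) * m) = (3 * m + 2) * (3 * m) := by ring
    rwa [e] at this
  have hchoose : v (2 : K) * v (((3 * m + 2).choose 2 : ℕ) : K) = g := by
    rw [← map_mul]
    have h7 : (2 : K) * (((3 * m + 2).choose 2 : ℕ) : K) =
        ((3 * m + 2 : ℕ) : K) * ((3 * m + 1 : ℕ) : K) := by
      rw [Nat.cast_choose_two]
      push_cast
      ring
    rw [h7, map_mul, hpv, one_mul, ← hpm]
  have hPp : v (PS x y z ((3 * m + 2) * (3 * m + 2))) ≤ g * v s ^ 2 := by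
    have h7 := PS_one v hs hx hy hz h2 hE ((3 * m + 1) * (m + 1))
    have e : 3 * ((3 * m + 1) * (m + 1)) + 1 = (3 * m + 2) * (3 * m + 2) := by ring
    rw [e, ← hη, ← hδ] at h7
    have hm' : v (((3 * m + 1) * (m + 1) : ℕ) : K) ≤ g * v (2 : K) := by
      rw [Nat.cast_mul, map_mul, ← hpm]
      have : v ((m + 1 : ℕ) : K) ≤ v (2 : K) := v_even_le v h2 (by
        obtain ⟨j, rfl⟩ := hm
        exact ⟨j + 1, by ring⟩)
      gcongr
    obtain ⟨m', hm'd⟩ : ∃ m', m' = (3 * m + 1) * (m + 1) := ⟨_, rfl⟩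
    rw [← hm'd] at h7 hm'
    have h8 : v (2 * η * PS x y z ((3 * m + 2) * (3 * m + 2))) ≤ v (m' : K) * δ ^ 2 := by
      have e4 : 2 * η * PS x y z ((3 * m + 2) * (3 * m + 2)) =
          (2 * η * PS x y z ((3 * m + 2) * (3 * m + 2)) -
          (m' : K) * (3 * (m' : K) + 1) * EE x y ^ 2 * η ^ m') +
          (m' : K) * (3 * (m' : K) + 1) * EE x y ^ 2 * η ^ m' := by ring
      rw [e4]
      refine v_add_le v ?_ ?_
      · refine h7.trans ?_
        rw [mul_assoc]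
        exact mul_le_of_le_one_left (by positivity) h2.le
      · rw [map_mul, map_mul, map_mul, map_pow, map_pow, hηv, one_pow, mul_one, ← hδ]
        have : v (3 * (m' : K) + 1) ≤ 1 := by
          exact_mod_cast natCast_le_one v (3 * m' + 1)
        calc v (m' : K) * v (3 * (m' : K) + 1) * δ ^ 2 ≤ v (m' : K) * 1 * δ ^ 2 := by gcongr
          _ = _ := by ring
    rw [map_mul, map_mul, hηv, mul_one] at h8
    have h9 : v (2 : K) * v (PS x y z ((3 * m + 2) * (3 * m + 2))) ≤ v (2 : K) * (g * δ ^ 2) := by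
      refine h8.trans ?_
      calc v (m' : K) * δ ^ 2 ≤ (g * v (2 : K)) * δ ^ 2 := by gcongr
        _ = _ := by ring
    refine (le_of_mul_le_mul_left h9 h2p).trans ?_
    rw [← h5, mul_pow]
    have : v (2 : K) ^ 2 ≤ 1 := pow_le_one₀ (apply_nonneg _ _) h2.le
    calc g * (v (2 : K) ^ 2 * v s ^ 2) ≤ g * (1 * v s ^ 2) := by gcongr
      _ = _ := by ring
  have hmid : v (((3 * m + 2 : ℕ) : K) * s * PS x y z ((3 * m + 2) * (3 * m + 1))) ≤
      g * v s ^ 2 := by
    have h7 := PS_le v hs hx.le hy.le hz.le h2 hE (n := (3 * m + 2) * (3 * m + 1)) (by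
      have e : (3 * m + 2) * (3 * m + 1) = 3 * (3 * m * m + 3 * m) + 2 := by ring
      rw [e]
      omega)
    rw [← hδ] at h7
    have h8 : v (((3 * m + 2) * (3 * m + 1) : ℕ) : K) = g := by
      rw [Nat.cast_mul, map_mul, hpv, one_mul, ← hpm]
    rw [h8] at h7
    rw [map_mul, map_mul, hpv, one_mul]
    calc v s * v (PS x y z ((3 * m + 2) * (3 * m + 1))) ≤ v s * (g * δ) := by gcongr
      _ = v (2 : K) * (g * v s ^ 2) := by rw [← h5]; ring
      _ ≤ 1 * (g * v s ^ 2) := by gcongr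
      _ = _ := one_mul _
  have hlast : v ((((3 * m + 2).choose 2 : ℕ) : K) * s ^ 2 * PS x y z ((3 * m + 2) * (3 * m))) ≤
      g * v s ^ 2 := by
    have e : (((3 * m + 2).choose 2 : ℕ) : K) * s ^ 2 * PS x y z ((3 * m + 2) * (3 * m)) =
        (PS x y z ((3 * m + 2) * (3 * m + 2)) -
        ((3 * m + 2 : ℕ) : K) * s * PS x y z ((3 * m + 2) * (3 * m + 1)) +
        ((3 * m + 2).choose 2 : K) * s ^ 2 * PS x y z ((3 * m + 2) * (3 * m))) -
        (PS x y z ((3 * m + 2) * (3 * m + 2)) -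
        ((3 * m + 2 : ℕ) : K) * s * PS x y z ((3 * m + 2) * (3 * m + 1))) := by ring
    rw [e]
    exact v_sub_le' v hsum (v_sub_le' v hPp hmid)
  rw [map_mul, map_mul, map_pow, hunit, mul_one] at hlast
  have h10 : v (2 : K) * (v (((3 * m + 2).choose 2 : ℕ) : K) * v s ^ 2) ≤
      v (2 : K) * (g * v s ^ 2) := by gcongr
  rw [← mul_assoc, hchoose] at h10
  have h11 : 0 < g * v s ^ 2 := by positivity
  nlinarith

end Pool.Agent.H59.SH
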